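import Pool.Agent.N103.SD.Final
import Pool.Agent.TH133.Hyper

/-!
# Complements which are sums of Tate motives
-/

open CategoryTheory AlgebraicGeometry

set_option autoImplicit false
set_option linter.unusedSectionVars false

universe u v w

namespace Pool.Agent.N103.SD

open Pool.Agent.H914 Pool.Agent.H914.VarClass Pool.Agent.H914.VarClass.Obj Pool.Agent.W492.BB
  Pool.Agent.W550.Corr Pool.Agent.TH133 Pool.Agent.Y107

variable {k : Type u} [Field k] {𝒱 : VarClass k}

variable {C : TheoryData.{u, v, 0} 𝒱 ℚ} [hC : IsChowProj C] {K : Type w} [Field K]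
  {H : WeilTheoryData.{u, v, w} C K} [hH : IsWeilProj H] {X Y : 𝒱.Obj}

section chow

include hC

/-- Cycles of a dimension different from zero have degree zero. -/
lemma hasDegree_zero_of_ne {x : C.A X} {i : ℤ} (hx : x ∈ C.gr X i) (hi : i ≠ X.dim) :
    HasDegree C x 0 := by
  intro Y
  rw [zero_smul]
  rcases lt_or_gt_of_ne hi with h | h
  · have h2 := C.push_mem (snd X Y) (C.pull_mem (fst X Y) hx)
    have h3 := C.push_mem (fst Y X) (C.pull_mem (snd Y X) hx)
    rw [C.gr_neg Y _ (by rw [dim_prod]; push_cast; omega)] at h2 h3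
    exact ⟨(Submodule.mem_bot _).1 h2, (Submodule.mem_bot _).1 h3⟩
  · rw [hC.gr_top X i _ hx h, map_zero, map_zero, map_zero, map_zero]
    exact ⟨rfl, rfl⟩

lemma ext_comp (u v : C.A Y) (c : C.A (Y.prod Y)) :
    C.comp (C.ext u v) c = C.ext u (C.act c v) := by
  rw [comp_eq_extR]
  exact C.extR_ext c (fun z => ch_comm C _ _) u v

lemma eq_sum_of_complement {a : C.A (X.prod Y)} {N : ℚ} {m : ℕ} {u v : Fin m → C.A Y}
    (h : dg C Y = N⁻¹ • C.comp (tp C a) a + ∑ i, C.ext (u i) (v i)) {c : C.A (Y.prod Y)}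
    (h1 : C.comp a c = 0) : c = ∑ i, C.ext (u i) (C.act c (v i)) := by
  have h2 : ∀ Γ : C.A (Y.prod Y), C.comp (N⁻¹ • Γ) c = N⁻¹ • C.comp Γ c :=
    fun Γ => LinearMap.map_smul₂ (compL C) _ _ _
  calc c = C.comp (dg C Y) c := (dg_comp C c).symm
    _ = N⁻¹ • C.comp (tp C a) (C.comp a c) + ∑ i, C.comp (C.ext (u i) (v i)) c := by
        rw [h, add_comp, h2, sum_comp, comp_assoc]
    _ = _ := by
        rw [h1, comp_zero, smul_zero, zero_add]
        exact Finset.sum_congr rfl fun i _ => ext_comp _ _ _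

end chow

include hC hH

/-- Homologically trivial endomorphisms of a sum of Tate motives vanish up to square zero. -/
lemma nilOffImage_of_tate {a : C.A (X.prod Y)} {N : ℚ} (h : TateComplement C a N) :
    NilOffImage H a := by
  obtain ⟨m, r, u, v, huv, hdg⟩ := h
  intro c hc h0 h1 _
  refine ⟨2, ?_⟩
  have h2 := eq_sum_of_complement hdg h1
  have h3 : ∀ i j, C.comp (C.ext (u i) (C.act c (v i))) (C.ext (u j) (C.act c (v j))) = 0 := by
    intro i j
    have hw : C.act c (v i) ∈ C.gr Y (r i) := act_mem0 C hc (huv i).2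
    have hcl : H.cl (C.act c (v i)) = 0 := by
      rw [cl_act, h0]
      exact H.act_zero _
    have hp : C.act c (v i) * u j ∈ C.gr Y ((r i : ℤ) + ((Y.dim : ℤ) - r j)) :=
      C.mul_mem hw (huv j).1
    have hdeg : HasDegree C (C.act c (v i) * u j) 0 := by
      by_cases hij : (r i : ℤ) = r j
      · rw [hij, show (r j : ℤ) + ((Y.dim : ℤ) - r j) = Y.dim by ring] at hp
        exact hasDegree_zero_of_cl H hp (by rw [map_mul, hcl, zero_mul])
      · exact hasDegree_zero_of_ne hp (by omega)
    rw [comp_ext_ext hdeg, zero_smul]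
  change C.comp (C.comp (dg C Y) c) c = 0
  rw [dg_comp]
  have h4 : C.comp c c = ∑ i, ∑ j, C.comp (C.ext (u i) (C.act c (v i)))
      (C.ext (u j) (C.act c (v j))) := by
    conv_lhs => rw [h2]
    rw [sum_comp]
    exact Finset.sum_congr rfl fun i _ => comp_sum C _ _ _
  rw [h4]
  exact Finset.sum_eq_zero fun i _ => Finset.sum_eq_zero fun j _ => h3 i j

/-- The Kunneth components of a sum of Tate motives are algebraic. -/
lemma algebraicComponents_of_tate {a : C.A (X.prod Y)} {N : ℚ} (h : TateComplement C a N) :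
    AlgebraicComponents H (dg C Y - N⁻¹ • C.comp (tp C a) a) := by
  obtain ⟨m, r, u, v, huv, hdg⟩ := h
  have hq : dg C Y - N⁻¹ • C.comp (tp C a) a = ∑ i, C.ext (u i) (v i) := by
    rw [hdg, add_sub_cancel_left]
  rw [hq]
  have hcl : ∀ (s : Fin m → C.A (Y.prod Y)) (x : H.A Y),
      H.act (H.cl (∑ i, s i)) x = ∑ i, H.act (H.cl (s i)) x := by
    intro s x
    rw [map_sum, act_sum]
  intro n _
  refine ⟨∑ i, if 2 * r i = n then C.ext (u i) (v i) else 0, ?_, ?_, ?_⟩
  · refine Submodule.sum_mem _ fun i _ => ?_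
    split_ifs
    · have h1 := ext_mem' (C := C) (huv i).1 (huv i).2
      rwa [sub_add_cancel] at h1
    · exact Submodule.zero_mem _
  · intro x hx
    rw [hcl, hcl]
    refine Finset.sum_congr rfl fun i _ => ?_
    split_ifs with hi
    · rfl
    · rw [act_ext_ne (r := r i) (huv i).2 (huv i).1 (j := n) (by omega) hx]
      exact actH_zero H x
  · intro j x hj hx
    rw [hcl]
    apply Finset.sum_eq_zero
    intro i _
    split_ifs with hi
    · exact act_ext_ne (r := r i) (huv i).2 (huv i).1 (j := j) (by omega) hx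
    · exact actH_zero H x

/-- Cancellation of Tate motives. -/
theorem cancel_tate {c : ℕ} (hd : Y.dim = X.dim + 2 * c) {a : C.A (X.prod Y)} {N : ℚ}
    (hN : N ≠ 0) (ha : C.Deg ((X.dim : ℤ) + c) a) (haa : C.comp a (tp C a) = N • dg C X)
    (h : TateComplement C a N) : HasSelfDualCK H Y ↔ HasSelfDualCK H X := by
  rw [cancel_factor hd hN ha haa (nilOffImage_of_tate h)]
  exact ⟨fun h' => h'.1, fun h' => ⟨h', algebraicComponents_of_tate h⟩⟩

end Pool.Agent.N103.SD
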