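import Pool.Agent.Y107.SDDefs

/-!
# Self-dual Chow-Kunneth decompositions of symmetric projectors: definitions
-/

open CategoryTheory AlgebraicGeometry

set_option autoImplicit false

universe u v w

namespace Pool.Agent.N103.SD

open Pool.Agent.H914 Pool.Agent.H914.VarClass Pool.Agent.H914.VarClass.Obj Pool.Agent.W492.BB
  Pool.Agent.W550.Corr Pool.Agent.TH133 Pool.Agent.Y107

variable {k : Type u} [Field k] {𝒱 : VarClass k}

/-- `e` is a projector of `Y` (an idempotent self-correspondence of degree zero) which is equal to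
its transpose. -/
structure SymProjector (C : TheoryData.{u, v, 0} 𝒱 ℚ) {Y : 𝒱.Obj} (e : C.A (Y.prod Y)) : Prop where
  deg : C.Deg Y.dim e
  idem : C.comp e e = e
  symm : tp C e = e

/-- The family `ᵗs ∘ π n ∘ s` (composition of operators). -/
noncomputable def moved (C : TheoryData.{u, v, 0} 𝒱 ℚ) {Y : 𝒱.Obj} (s : C.A (Y.prod Y))
    (π : ℕ → C.A (Y.prod Y)) (n : ℕ) : C.A (Y.prod Y) := C.comp (C.comp s (π n)) (tp C s)

/-- The complement of `a : h(X) → h(Y)(c)` is a sum of Tate motives: the diagonal of `Y` is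
`N⁻¹ (a ∘ ᵗa) + ∑ u_i × v_i` with `u_i ∈ CH^(dim Y - r_i)(Y)` and `v_i ∈ CH^(r_i)(Y)`. -/
def TateComplement (C : TheoryData.{u, v, 0} 𝒱 ℚ) {X Y : 𝒱.Obj} (a : C.A (X.prod Y)) (N : ℚ) :
    Prop :=
  ∃ (m : ℕ) (r : Fin m → ℕ) (u v : Fin m → C.A Y),
    (∀ i, C.Deg ((Y.dim : ℤ) - r i) (u i) ∧ C.Deg (r i) (v i)) ∧
    dg C Y = N⁻¹ • C.comp (tp C a) a + ∑ i, C.ext (u i) (v i)

section

variable {C : TheoryData.{u, v, 0} 𝒱 ℚ} {K : Type w} [Field K] (H : WeilTheoryData.{u, v, w} C K)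

/-- The family `r` is a self-dual Chow-Kunneth decomposition of the motive `(Y, e)`, for a symmetric
projector `e`: self-correspondences `r 0, …, r (2 dim Y)` of degree zero (`r n = 0` for
`n > 2 dim Y`) which are mutually orthogonal idempotents with sum `e`, such that `r n` acts as `e`
on `H^n(Y)` and as zero on `H^m(Y)` for `m ≠ n`, and the transpose of `r n` is
`r (2 dim Y - n)`. -/
structure SelfDualCK {Y : 𝒱.Obj} (e : C.A (Y.prod Y)) (r : ℕ → C.A (Y.prod Y)) : Prop where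
  deg : ∀ n, C.Deg Y.dim (r n)
  out : ∀ n, 2 * Y.dim < n → r n = 0
  idem : ∀ n, C.comp (r n) (r n) = r n
  orth : ∀ m n, m ≠ n → C.comp (r m) (r n) = 0
  sum : ∑ n ∈ Finset.range (2 * Y.dim + 1), r n = e
  act_self : ∀ (n : ℕ) (x : H.A Y), H.Deg n x → H.act (H.cl (r n)) x = H.act (H.cl e) x
  act_ne : ∀ (n : ℕ) (m : ℤ) (x : H.A Y), m ≠ n → H.Deg m x → H.act (H.cl (r n)) x = 0
  selfDual : ∀ n ≤ 2 * Y.dim, tp C (r n) = r (2 * Y.dim - n)

/-- The Kunneth components of the projector `q` of `Y` are algebraic: for `n ≤ 2 dim Y` there is a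
self-correspondence of degree zero which acts as `q` on `H^n(Y)` and as zero on `H^m(Y)` for
`m ≠ n`. -/
def AlgebraicComponents {Y : 𝒱.Obj} (q : C.A (Y.prod Y)) : Prop :=
  ∀ n ≤ 2 * Y.dim, ∃ b : C.A (Y.prod Y), C.Deg Y.dim b ∧
    (∀ x : H.A Y, H.Deg n x → H.act (H.cl b) x = H.act (H.cl q) x) ∧
    ∀ (m : ℤ) (x : H.A Y), m ≠ n → H.Deg m x → H.act (H.cl b) x = 0

/-- The homologically trivial endomorphisms of the motive `(Y, 1 - e)` are nilpotent: a homologically
trivial self-correspondence `c` of degree zero of `Y` with `e ∘ c = 0` and `c ∘ e = 0` is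
nilpotent. -/
def NilComplement {Y : 𝒱.Obj} (e : C.A (Y.prod Y)) : Prop :=
  ∀ c : C.A (Y.prod Y), C.Deg Y.dim c → H.cl c = 0 → C.comp c e = 0 → C.comp e c = 0 →
    ∃ n, corPow C c n = 0

/-- The homologically trivial endomorphisms of the complement of `a : h(X) → h(Y)(c)` (with the
transpose as projection) are nilpotent: a homologically trivial self-correspondence `c` of degree
zero of `Y` with `c ∘ a = 0` and `ᵗa ∘ c = 0` is nilpotent. -/
def NilOffImage {X Y : 𝒱.Obj} (a : C.A (X.prod Y)) : Prop :=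
  ∀ c : C.A (Y.prod Y), C.Deg Y.dim c → H.cl c = 0 → C.comp a c = 0 → C.comp c (tp C a) = 0 →
    ∃ n, corPow C c n = 0

/-- `X` has a self-dual Chow-Kunneth decomposition. -/
def HasSelfDualCK (X : 𝒱.Obj) : Prop := ∃ π : ℕ → C.A (X.prod X), IsCK H X π ∧ IsSelfDual C π

end

end Pool.Agent.N103.SD
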