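import Pool.Agent.N103.SD.Transport

/-!
# Cancellation for self-dual Chow-Kunneth decompositions: the main theorems
-/

open CategoryTheory AlgebraicGeometry

set_option autoImplicit false
set_option linter.unusedSectionVars false

universe u v w

namespace Pool.Agent.N103.SD

open Pool.Agent.H914 Pool.Agent.H914.VarClass Pool.Agent.H914.VarClass.Obj Pool.Agent.W492.BB
  Pool.Agent.W550.Corr Pool.Agent.TH133 Pool.Agent.Y107

variable {k : Type u} [Field k] {𝒱 : VarClass k}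

variable {C : TheoryData.{u, v, 0} 𝒱 ℚ} [hC : IsChowProj C] {K : Type w} [Field K]
  {H : WeilTheoryData.{u, v, w} C K} [hH : IsWeilProj H] {X Y : 𝒱.Obj}

lemma commute_of_compl {R : Type*} [Ring R] {x e : R} (h : Commute x (1 - e)) :
    x * e = e * x := by
  rw [Commute, SemiconjBy, mul_sub, sub_mul, mul_one, one_mul] at h
  exact sub_right_injective h

section chow

include hC

lemma tp_cograph (f : Y ⟶ X) : tp C (C.cograph f) = C.graph f := by
  rw [tp_eq_push, TheoryData.cograph, TheoryData.graph, ← C.push_comp]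
  have e1 : Obj.lift f (𝟙 Y) ≫ sw X Y = Obj.lift (𝟙 Y) f := by
    apply prod_ext <;> simp [sw, comp_lift]
  rw [e1]

end chow

include hC hH

/-- The situation for the complement of a symmetric projector. -/
lemma sit_compl {e : C.A (Y.prod Y)} (he : SymProjector C e) (hnil : NilComplement H e) :
    Sit (tp0 C Y) (act0 C Y H) (fun m => H.gr Y m) Y.dim (1 - ⟨e, he.deg⟩ : ↥(cor0 C Y)) := by
  have hee : (⟨e, he.deg⟩ : ↥(cor0 C Y)) * ⟨e, he.deg⟩ = ⟨e, he.deg⟩ := Subtype.ext he.idem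
  have hte : tp0 C Y ⟨e, he.deg⟩ = ⟨e, he.deg⟩ := Subtype.ext he.symm
  have ht1 : tp0 C Y 1 = 1 := Subtype.ext tpR_one
  apply sit
  · exact compl_idem hee
  · rw [map_sub, ht1, hte]
  · intro c h1 h2 h3
    rw [sub_mul, one_mul, sub_eq_self] at h1
    rw [mul_sub, mul_one, sub_eq_self] at h2
    obtain ⟨n, hn⟩ := hnil c.1 c.2 (hom_zero_of_act H fun x => LinearMap.congr_fun h3 x)
      (congrArg Subtype.val h1) (congrArg Subtype.val h2)
    exact nil_of_corPow (H := H) hn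

lemma hasSelfDualCK_iff : HasSelfDualCK H Y ↔
    ∃ p, Dec (tp0 C Y) (act0 C Y H) (fun m => H.gr Y m) Y.dim (1 : ↥(cor0 C Y)) p := by
  have h1 := exists_dec_iff (C := C) (H := H) (Y := Y) (dg_mem C Y)
  have h2 : (⟨dg C Y, dg_mem C Y⟩ : ↥(cor0 C Y)) = 1 := rfl
  rw [h2] at h1
  rw [h1]
  exact exists_congr fun π => (selfDualCK_dg π).symm

/-- Cancellation. -/
theorem cancel {e : C.A (Y.prod Y)} (he : SymProjector C e) (hnil : NilComplement H e) :
    HasSelfDualCK H Y ↔ (∃ r, SelfDualCK H e r) ∧ AlgebraicComponents H (dg C Y - e) := by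
  have h := sit_compl he hnil
  rw [hasSelfDualCK_iff, h.iff, sub_sub_cancel, exists_dec_iff he.deg, exists_selfDualCK_iff h]
  rfl

/-- Moving a self-dual Chow-Kunneth decomposition. -/
theorem move {e : C.A (Y.prod Y)} (he : SymProjector C e) (hnil : NilComplement H e)
    {π : ℕ → C.A (Y.prod Y)} (hπ : IsCK H Y π) (hπ' : IsSelfDual C π) :
    ∃ s : C.A (Y.prod Y), C.Deg Y.dim s ∧ C.comp s (tp C s) = dg C Y ∧
      C.comp (tp C s) s = dg C Y ∧ (∀ x : H.A Y, H.act (H.cl s) x = x) ∧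
      IsCK H Y (moved C s π) ∧ IsSelfDual C (moved C s π) ∧
      ∀ n, C.comp (moved C s π n) e = C.comp e (moved C s π n) := by
  have h := sit_compl he hnil
  have hp := (dec_iff (dg_mem C Y) π hπ.deg).2 ((selfDualCK_dg (H := H) π).2 ⟨hπ, hπ'⟩)
  have h2 : (⟨dg C Y, dg_mem C Y⟩ : ↥(cor0 C Y)) = 1 := rfl
  rw [h2] at hp
  obtain ⟨s, h3, h4, h5, h6⟩ := h.exists_move hp
  have hm := hp.move h.tmul h.tt h3 h4 h5
  have e1 : ∀ n, ((tp0 C Y s * ⟨π n, hπ.deg n⟩ * s : ↥(cor0 C Y)) : Cor C Y) =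
      moved C s.1 π n := by
    intro n
    have : ((tp0 C Y s * ⟨π n, hπ.deg n⟩ * s : ↥(cor0 C Y)) : Cor C Y) =
      C.comp (X := Y) (Y := Y) (Z := Y) s.1 (C.comp (X := Y) (Y := Y) (Z := Y) (π n)
        (tp C (X := Y) (Y := Y) s.1)) := rfl
    exact this.trans (comp_assoc C (X := Y) (Y := Y) (Z := Y) (W := Y) s.1 (π n)
      (tp C (X := Y) (Y := Y) s.1)).symm
  have hd : ∀ n, C.Deg Y.dim (moved C s.1 π n) := fun n => by
    rw [← e1]
    exact (tp0 C Y s * ⟨π n, hπ.deg n⟩ * s : ↥(cor0 C Y)).2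
  have e2 : (fun n => tp0 C Y s * ⟨π n, hπ.deg n⟩ * s) =
      fun n => (⟨moved C s.1 π n, hd n⟩ : ↥(cor0 C Y)) :=
    funext fun n => Subtype.ext (e1 n)
  have hm' : Dec (tp0 C Y) (act0 C Y H) (fun m => H.gr Y m) Y.dim
      (⟨dg C Y, dg_mem C Y⟩ : ↥(cor0 C Y)) (fun n => ⟨moved C s.1 π n, hd n⟩) := by
    rw [← e2]
    exact hm
  have hck := (selfDualCK_dg (H := H) _).1 ((dec_iff (dg_mem C Y) _ hd).1 hm')
  have h5' : ∀ x : H.A Y, H.act (H.cl (X := Y.prod Y) s.1) x = x := by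
    intro x
    have h12 := LinearMap.congr_fun h5 x
    rw [act0_apply, actH_apply] at h12
    exact h12
  have k1 : C.comp (X := Y) (Y := Y) (Z := Y) s.1 (tp C (X := Y) (Y := Y) s.1) = dg C Y :=
    congrArg Subtype.val h3
  have k2 : C.comp (X := Y) (Y := Y) (Z := Y) (tp C (X := Y) (Y := Y) s.1) s.1 = dg C Y :=
    congrArg Subtype.val h4
  have hcomm : ∀ n, C.comp (moved C s.1 π n) e = C.comp e (moved C s.1 π n) := by
    intro n
    have h10 := congrArg Subtype.val (commute_of_compl (h6 n))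
    have h11 : C.comp (X := Y) (Y := Y) (Z := Y) e
        ((tp0 C Y s * ⟨π n, hπ.deg n⟩ * s : ↥(cor0 C Y)) : Cor C Y) =
        C.comp (X := Y) (Y := Y) (Z := Y)
        ((tp0 C Y s * ⟨π n, hπ.deg n⟩ * s : ↥(cor0 C Y)) : Cor C Y) e := h10
    rw [e1] at h11
    exact h11.symm
  obtain ⟨s, hs⟩ := s
  exact ⟨s, hs, k1, k2, h5', hck.1, hck.2, hcomm⟩

/-- Cancellation for direct factors. -/
theorem cancel_factor {c : ℕ} (hd : Y.dim = X.dim + 2 * c) {a : C.A (X.prod Y)} {N : ℚ}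
    (hN : N ≠ 0) (ha : C.Deg ((X.dim : ℤ) + c) a) (haa : C.comp a (tp C a) = N • dg C X)
    (hnil : NilOffImage H a) :
    HasSelfDualCK H Y ↔ HasSelfDualCK H X ∧
      AlgebraicComponents H (dg C Y - N⁻¹ • C.comp (tp C a) a) := by
  set b : C.A (Y.prod X) := N⁻¹ • tp C a with hb
  have ha' : a ∈ C.gr (X.prod Y) ((X.dim : ℤ) + c) := ha
  have htam : tp C a ∈ C.gr (Y.prod X) ((Y.dim : ℤ) + -c) := by
    have h1 := tp_mem C ha'
    rwa [show (X.dim : ℤ) + c = (Y.dim : ℤ) + -c by rw [hd]; push_cast; ring] at h1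
  have hbm : b ∈ C.gr (Y.prod X) ((Y.dim : ℤ) + -c) := Submodule.smul_mem _ _ htam
  have hsm : ∀ {Z W : 𝒱.Obj} (q : ℚ) (Γ : C.A (Z.prod Y)) (Δ : C.A (Y.prod W)),
      C.comp Γ (q • Δ) = q • C.comp Γ Δ := fun q Γ Δ => map_smul (compL C Γ) q Δ
  have hsm' : ∀ {W : 𝒱.Obj} (q : ℚ) (Γ : C.A (Y.prod X)) (Δ : C.A (X.prod W)),
      C.comp (q • Γ) Δ = q • C.comp Γ Δ := fun q Γ Δ => LinearMap.map_smul₂ (compL C) q Γ Δ
  have hab : C.comp a b = dg C X := by
    rw [hb, hsm, haa, smul_smul, inv_mul_cancel₀ hN, one_smul]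
  have hba : C.comp b a = N⁻¹ • C.comp (tp C a) a := by rw [hb, hsm']
  have hS : SymProjector C (C.comp b a) := by
    refine ⟨?_, ?_, ?_⟩
    · have h2 := comp_mem C hbm ha'
      rwa [show (Y.dim : ℤ) + (-c + c) = Y.dim by ring] at h2
    · rw [comp_assoc C b a, ← comp_assoc C a b a, hab, dg_comp]
    · rw [hba, tp_smul, tp_comp C (ch_comm C), tp_tp]
  have hnil' : NilComplement H (C.comp b a) := by
    intro x hx h0 h1 h2
    apply hnil x hx h0
    · have h3 : C.comp a (C.comp (C.comp b a) x) = C.comp a x := by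
        rw [← comp_assoc C a (C.comp b a) x, ← comp_assoc C a b a, hab, dg_comp]
      rw [← h3, h2, comp_zero]
    · have h3 : C.comp (C.comp x (C.comp b a)) b = C.comp x b := by
        rw [comp_assoc C x (C.comp b a) b, comp_assoc C b a b, hab, comp_dg]
      have h4 : C.comp x b = 0 := by rw [← h3, h1, zero_comp]
      rw [hb, hsm] at h4
      have h5 := congrArg (fun z => N • z) h4
      simp only [smul_smul, mul_inv_cancel₀ hN, one_smul, smul_zero] at h5
      exact h5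
  rw [cancel hS hnil', hba, ← hba]
  have key : (∃ r, SelfDualCK H (C.comp b a) r) ↔ HasSelfDualCK H X := by
    constructor
    · rintro ⟨r, hr⟩
      exact ⟨_, exists_of_factor hd hN ha' hbm hb hab hr⟩
    · rintro ⟨π, h1, h2⟩
      exact ⟨_, exists_to_factor hd hN ha' hbm hb hab h1 h2⟩
  rw [key]

/-- Cancellation for morphisms of non-zero degree. -/
theorem cancel_morphism (f : Y ⟶ X) {N : ℚ} (hd : Y.dim = X.dim) (hN : N ≠ 0)
    (hf : C.push f 1 = N • 1) (hnil : NilOffImage H (C.cograph f)) :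
    HasSelfDualCK H Y ↔ HasSelfDualCK H X ∧
      AlgebraicComponents H (dg C Y - N⁻¹ • C.comp (C.graph f) (C.cograph f)) := by
  have h1 : C.comp (C.cograph f) (tp C (C.cograph f)) = N • dg C X := by
    rw [tp_cograph, cograph_graph, hf]
    exact map_smul (C.push _) _ _
  have h2 := cancel_factor (H := H) (c := 0) (a := C.cograph f) (by rw [hd]; rfl) hN (by
    have := cograph_mem (C := C) f
    rwa [show (X.dim : ℤ) = X.dim + (0 : ℕ) by push_cast; ring] at this) h1 hnil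
  rwa [tp_cograph] at h2

end Pool.Agent.N103.SD
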