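import Pool.Agent.N103.SD.Witt

/-!
# Gluing, splitting and moving self-dual decompositions
-/

set_option autoImplicit false
set_option linter.unusedSectionVars false

namespace Pool.Agent.N103.SD

variable {A : Type*} [Ring A] [Algebra ℚ A] {K V : Type*} [Field K] [AddCommGroup V] [Module K V]
  {t : A →+ A} {ρ : A →+* Module.End K V} {G : ℤ → Submodule K V} {d : ℕ} {q : A}

/-- Gluing. -/
lemma Dec.glue {q' : A} {e e' : ℕ → A} (h : Dec t ρ G d q e) (h' : Dec t ρ G d q' e')
    (h1 : q * q' = 0) (h2 : q' * q = 0) : Dec t ρ G d (q + q') (fun n => e n + e' n) where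
  out n hn := by rw [h.out n hn, h'.out n hn, add_zero]
  mul m n := by
    have e1 : e m * e' n = 0 := by
      rw [← h.right m, ← h'.left n, mul_assoc, ← mul_assoc q, h1, zero_mul, mul_zero]
    have e2 : e' m * e n = 0 := by
      rw [← h'.right m, ← h.left n, mul_assoc, ← mul_assoc q', h2, zero_mul, mul_zero]
    rw [add_mul, mul_add, mul_add, e1, e2, add_zero, zero_add, h.mul, h'.mul]
    split_ifs
    · rfl
    · exact add_zero 0
  sum := by rw [Finset.sum_add_distrib, h.sum, h'.sum]
  act n m x hx := by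
    rw [map_add, LinearMap.add_apply, h.act n m x hx, h'.act n m x hx, map_add]
    split_ifs
    · rfl
    · exact add_zero 0
  dual n hn := by rw [map_add, h.dual n hn, h'.dual n hn]

/-- Splitting. -/
lemma Dec.split (hmul : ∀ a b, t (a * b) = t b * t a) {p : ℕ → A} (h : Dec t ρ G d 1 p)
    (hqq : q * q = q) (htq : t q = q) (hc : ∀ n, Commute (p n) q) :
    Dec t ρ G d q (fun n => q * p n) where
  out n hn := by rw [h.out n hn, mul_zero]
  mul m n := by
    have e1 : q * p m * (q * p n) = q * (p m * p n) := by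
      rw [← mul_assoc, mul_assoc q, (hc m).eq, ← mul_assoc, hqq, mul_assoc]
    rw [e1, h.mul]
    split_ifs
    · rfl
    · exact mul_zero q
  sum := by rw [← Finset.mul_sum, h.sum, mul_one]
  act n m x hx := by
    rw [map_mul, Module.End.mul_apply, h.act n m x hx, map_one]
    split_ifs
    · rfl
    · exact map_zero _
  dual n hn := by rw [hmul, htq, h.dual n hn, (hc _).eq]

/-- Moving by an isometry acting as the identity. -/
lemma Dec.move (hmul : ∀ a b, t (a * b) = t b * t a) (htt : ∀ a, t (t a) = a) {p : ℕ → A}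
    (h : Dec t ρ G d 1 p) {s : A} (h1 : t s * s = 1) (h2 : s * t s = 1) (hρ : ρ s = 1) :
    Dec t ρ G d 1 (fun n => t s * p n * s) where
  out n hn := by rw [h.out n hn, mul_zero, zero_mul]
  mul m n := by
    have e1 : t s * p m * s * (t s * p n * s) = t s * (p m * p n) * s := by
      calc t s * p m * s * (t s * p n * s) = t s * p m * (s * t s) * p n * s := by
            simp only [mul_assoc]
        _ = _ := by rw [h2, mul_one, mul_assoc (t s)]
    rw [e1, h.mul]
    split_ifs
    · rfl
    · rw [mul_zero, zero_mul]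
  sum := by rw [← Finset.sum_mul, ← Finset.mul_sum, h.sum, mul_one, h1]
  act n m x hx := by
    have hρt : ρ (t s) = 1 := by
      have := congrArg ρ h1
      rwa [map_mul, hρ, mul_one, map_one] at this
    rw [map_mul, map_mul, hρ, hρt, one_mul, mul_one, h.act n m x hx]
  dual n hn := by rw [hmul, hmul, htt, h.dual n hn, mul_assoc]

/-- The complement of a symmetric idempotent. -/
lemma compl_idem (hqq : q * q = q) : (1 - q) * (1 - q) = 1 - q := by
  rw [sub_mul, one_mul, mul_sub, mul_one, hqq, sub_self, sub_zero]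

/-- **Cancellation.** The ring has a self-dual decomposition if and only if both corners have. -/
theorem Sit.iff (h : Sit t ρ G d q) :
    (∃ p, Dec t ρ G d 1 p) ↔ (∃ r, Dec t ρ G d (1 - q) r) ∧ ∃ e, Dec t ρ G d q e := by
  constructor
  · rintro ⟨p, hp⟩
    obtain ⟨s, h1, h2, h3, h4⟩ := h.exists_move hp
    have hm := hp.move h.tmul h.tt h1 h2 h3
    exact ⟨⟨_, hm.split h.tmul (compl_idem h.qq) (by rw [map_sub, h.tone, h.tq]) fun n =>
      (Commute.one_right _).sub_right (h4 n)⟩, ⟨_, hm.split h.tmul h.qq h.tq h4⟩⟩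
  · rintro ⟨⟨r, hr⟩, ⟨e, he⟩⟩
    have h5 := hr.glue he (by rw [sub_mul, one_mul, h.qq, sub_self])
      (by rw [mul_sub, mul_one, h.qq, sub_self])
    rw [sub_add_cancel] at h5
    exact ⟨_, h5⟩

end Pool.Agent.N103.SD
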