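import Pool.Agent.N103.SD.Defs
import Pool.Agent.N103.SD.Glue
import Pool.Agent.Y107.SDMul

/-!
# Cancellation for self-dual Chow-Kunneth decompositions
-/

open CategoryTheory AlgebraicGeometry

set_option autoImplicit false
set_option linter.unusedSectionVars false

universe u v w

namespace Pool.Agent.N103.SD

open Pool.Agent.H914 Pool.Agent.H914.VarClass Pool.Agent.H914.VarClass.Obj Pool.Agent.W492.BB
  Pool.Agent.W550.Corr Pool.Agent.TH133 Pool.Agent.Y107

variable {k : Type u} [Field k] {𝒱 : VarClass k}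

variable {C : TheoryData.{u, v, 0} 𝒱 ℚ} [hC : IsChowProj C] {K : Type w} [Field K]
  {H : WeilTheoryData.{u, v, w} C K} [hH : IsWeilProj H] {X Y : 𝒱.Obj}

section ring

include hC

/-- The transpose on the self-correspondences of degree zero. -/
noncomputable def tp0 (C : TheoryData.{u, v, 0} 𝒱 ℚ) [hC : IsChowProj C] (Y : 𝒱.Obj) :
    ↥(cor0 C Y) →+ ↥(cor0 C Y) :=
  AddMonoidHom.mk' (fun a => ⟨tpR C Y a.1, tpR_mem a.2⟩)
    fun a b => Subtype.ext (map_add (tpR C Y) a.1 b.1)

lemma tp0_coe (a : ↥(cor0 C Y)) : ((tp0 C Y a : ↥(cor0 C Y)) : Cor C Y) = tpR C Y a.1 := rfl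

/-- The action on the cohomology. -/
noncomputable def act0 (C : TheoryData.{u, v, 0} 𝒱 ℚ) [hC : IsChowProj C] (Y : 𝒱.Obj)
    (H : WeilTheoryData.{u, v, w} C K) [hH : IsWeilProj H] :
    ↥(cor0 C Y) →+* Module.End K (H.A Y) :=
  (actH C Y H).comp (cor0 C Y).toSubring.subtype

lemma act0_apply (a : ↥(cor0 C Y)) (x : H.A Y) : act0 C Y H a x = actH C Y H a.1 x := rfl

end ring

include hC hH

lemma nil_of_corPow {c : ↥(cor0 C Y)} {n : ℕ} (h : corPow C (X := Y) c.1 n = 0) :
    IsNilpotent c := by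
  refine ⟨n, Subtype.ext ?_⟩
  have h1 := corPow_eq (C := C) (X := Y) c.1 n
  rw [h] at h1
  exact h1.symm

/-- The situation of the ring theoretic results. -/
lemma sit {q : ↥(cor0 C Y)} (hqq : q * q = q) (htq : tp0 C Y q = q)
    (hnil : ∀ c : ↥(cor0 C Y), q * c = c → c * q = c → act0 C Y H c = 0 → IsNilpotent c) :
    Sit (tp0 C Y) (act0 C Y H) (fun m => H.gr Y m) Y.dim q where
  tmul a b := Subtype.ext (tpR_mul a.1 b.1)
  tt a := Subtype.ext (tpR_tpR a.1)
  tone := Subtype.ext tpR_one
  ext f hf := ext_gr H f 0 fun i a ha => hf i a ha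
  low _ hm := H.gr_neg Y _ hm
  top _ hm := gr_top H hm
  pres a _ _ hx := actH_mem0 a.2 hx
  qq := hqq
  tq := htq
  nil := hnil

/-- Translation between the two notions of decomposition. -/
lemma dec_iff {e : C.A (Y.prod Y)} (he : C.Deg Y.dim e) (r : ℕ → C.A (Y.prod Y))
    (hr : ∀ n, C.Deg Y.dim (r n)) :
    Dec (tp0 C Y) (act0 C Y H) (fun m => H.gr Y m) Y.dim (⟨e, he⟩ : ↥(cor0 C Y))
      (fun n => ⟨r n, hr n⟩) ↔ SelfDualCK H e r := by
  constructor
  · intro h
    refine ⟨hr, ?_, ?_, ?_, ?_, ?_, ?_, ?_⟩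
    · intro n hn
      exact congrArg Subtype.val (h.out n hn)
    · intro n
      have h1 := h.mul n n
      rw [if_pos rfl] at h1
      exact congrArg Subtype.val h1
    · intro m n hmn
      have h1 := h.mul n m
      rw [if_neg hmn.symm] at h1
      exact congrArg Subtype.val h1
    · have h1 := congrArg Subtype.val h.sum
      rw [AddSubmonoidClass.coe_finsetSum] at h1
      exact h1
    · intro n x hx
      have h1 := h.act n n x hx
      rw [if_pos rfl] at h1
      exact h1
    · intro n m x hm hx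
      have h1 := h.act n m x hx
      rw [if_neg hm] at h1
      exact h1
    · intro n hn
      exact congrArg Subtype.val (h.dual n hn)
  · intro h
    refine ⟨?_, ?_, ?_, ?_, ?_⟩
    · intro n hn
      exact Subtype.ext (h.out n hn)
    · intro m n
      split_ifs with hmn
      · subst hmn
        exact Subtype.ext (h.idem m)
      · exact Subtype.ext (h.orth n m (Ne.symm hmn))
    · apply Subtype.ext
      rw [AddSubmonoidClass.coe_finsetSum]
      exact h.sum
    · intro n m x hx
      split_ifs with hmn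
      · subst hmn
        exact h.act_self n x hx
      · exact h.act_ne n m x hmn hx
    · intro n hn
      exact Subtype.ext (h.selfDual n hn)

/-- Any decomposition in the abstract sense comes from correspondences. -/
lemma exists_dec_iff {e : C.A (Y.prod Y)} (he : C.Deg Y.dim e) :
    (∃ r, Dec (tp0 C Y) (act0 C Y H) (fun m => H.gr Y m) Y.dim (⟨e, he⟩ : ↥(cor0 C Y)) r) ↔
      ∃ r, SelfDualCK H e r := by
  constructor
  · rintro ⟨r, hr⟩
    exact ⟨fun n => (r n).1, (dec_iff he _ fun n => (r n).2).1 hr⟩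
  · rintro ⟨r, hr⟩
    exact ⟨_, (dec_iff he r hr.deg).2 hr⟩

lemma selfDualCK_dg (π : ℕ → C.A (Y.prod Y)) :
    SelfDualCK H (dg C Y) π ↔ IsCK H Y π ∧ IsSelfDual C π := by
  constructor
  · intro h
    exact ⟨⟨h.deg, h.out, h.idem, h.orth, h.sum, fun n x hx => by
      rw [h.act_self n x hx, actH_dg], fun n m x hm hx => h.act_ne n m x hm hx⟩, h.selfDual⟩
  · rintro ⟨h, h'⟩
    exact ⟨h.deg, h.out, h.idem, h.orth, h.sum, fun n x hx => by
      rw [h.act_self n x hx, actH_dg], h.act_ne, h'⟩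

/-- The transposes of the components. -/
lemma act_tp_component {q b : C.A (Y.prod Y)} (hq : C.Deg Y.dim q) (hqs : tp C q = q) {n : ℕ}
    (hn : n ≤ 2 * Y.dim)
    (h1 : ∀ x : H.A Y, H.Deg n x → H.act (H.cl b) x = H.act (H.cl q) x)
    (h2 : ∀ (m : ℤ) (x : H.A Y), m ≠ n → H.Deg m x → H.act (H.cl b) x = 0)
    (m : ℤ) (x : H.A Y) (hx : x ∈ H.gr Y m) :
    H.act (H.cl (tp C b)) x = if m = (2 * Y.dim - n : ℕ) then H.act (H.cl q) x else 0 := by
  have hqm : ∀ {j : ℤ} {y : H.A Y}, y ∈ H.gr Y j → H.act (H.cl q) y ∈ H.gr Y j := by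
    intro j y hy
    exact actH_mem0 (C := C) (X := Y) (H := H) (a := q) hq hy
  rw [← sub_eq_zero]
  apply H.nondeg
  intro y0
  have key : H.tr Y ∘ₗ LinearMap.mulLeft K (H.act (H.cl (tp C b)) x -
      if m = (2 * Y.dim - n : ℕ) then H.act (H.cl q) x else 0) = 0 := by
    apply ext_gr H
    intro j y hy
    rw [LinearMap.comp_apply, LinearMap.mulLeft_apply, sub_mul, map_sub, tr_act' H,
      LinearMap.zero_apply]
    by_cases hj : j = n
    · subst hj
      rw [h1 y hy]
      split_ifs with hm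
      · have h3 := tr_act' H (X := Y) (Y := Y) q y x
        rw [hqs] at h3
        rw [h3, sub_self]
      · rw [zero_mul, map_zero, sub_zero]
        exact tr_zero H (H.mul_mem hx (hqm hy)) (by omega)
    · rw [h2 j y hj hy, mul_zero, map_zero, zero_sub, neg_eq_zero]
      split_ifs with hm
      · exact tr_zero H (H.mul_mem (hqm hx) hy) (by omega)
      · rw [zero_mul, map_zero]
  exact LinearMap.congr_fun key y0

/-- Self-dual decompositions of a projector whose homologically trivial endomorphisms are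
nilpotent. -/
theorem exists_selfDualCK_iff {q : ↥(cor0 C Y)}
    (h : Sit (tp0 C Y) (act0 C Y H) (fun m => H.gr Y m) Y.dim q) :
    (∃ e, Dec (tp0 C Y) (act0 C Y H) (fun m => H.gr Y m) Y.dim q e) ↔
      AlgebraicComponents H (Y := Y) q.1 := by
  constructor
  · rintro ⟨e, he⟩ n _
    refine ⟨(e n).1, (e n).2, fun x hx => ?_, fun m x hm hx => ?_⟩
    · have h1 := he.act n n x hx
      rw [if_pos rfl] at h1
      exact h1
    · have h1 := he.act n m x hx
      rw [if_neg hm] at h1
      exact h1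
  · intro hα
    have hα' : ∀ n : ℕ, ∃ b : ↥(cor0 C Y), n ≤ 2 * Y.dim →
        (∀ x : H.A Y, H.Deg n x → H.act (H.cl (X := Y.prod Y) b.1) x =
          H.act (H.cl (X := Y.prod Y) q.1) x) ∧
        ∀ (m : ℤ) (x : H.A Y), m ≠ n → H.Deg m x →
          H.act (H.cl (X := Y.prod Y) b.1) x = 0 := by
      intro n
      by_cases hn : n ≤ 2 * Y.dim
      · obtain ⟨b, hb, h1, h2⟩ := hα n hn
        exact ⟨⟨b, hb⟩, fun _ => ⟨h1, h2⟩⟩
      · exact ⟨0, fun h' => absurd h' hn⟩
    choose α hα1 using hα'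
    apply h.exists_dec_of_components α
    · intro n m x hn hx
      split_ifs with hm
      · subst hm
        exact (hα1 n hn).1 x hx
      · exact (hα1 n hn).2 m x hm hx
    · intro n m x hn hx
      exact act_tp_component q.2 (congrArg Subtype.val h.tq) hn (hα1 n hn).1 (hα1 n hn).2 m x hx

end Pool.Agent.N103.SD
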