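import Mathlib.LinearAlgebra.Lagrange
import Mathlib.Algebra.Polynomial.AlgebraMap
import Mathlib.Tactic

/-!
# Polynomials for symmetric idempotents and inverse square roots
-/

set_option autoImplicit false

namespace Pool.Agent.N103.SD

open Polynomial

/-- The nodes. -/
def nd (d j : ℕ) : ℚ := 2 * ((j : ℚ) - d)

lemma nd_inj (d : ℕ) : Function.Injective (nd d) := by
  intro a b h
  unfold nd at h
  have : (a : ℚ) = b := by linarith
  exact_mod_cast this

/-- The Lagrange polynomials. -/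
noncomputable def LP (d n : ℕ) : ℚ[X] := Lagrange.basis (Finset.range (2 * d + 1)) (nd d) n

/-- The product of the `X - v` over the nodes. -/
noncomputable def PP (d : ℕ) : ℚ[X] := Lagrange.nodal (Finset.range (2 * d + 1)) (nd d)

/-- The lifts of the Lagrange polynomials to idempotents modulo a power. -/
noncomputable def EE (d k n : ℕ) : ℚ[X] := 1 - (1 - LP d n ^ k) ^ k

lemma PP_dvd {d : ℕ} {F : ℚ[X]} (h : ∀ j ≤ 2 * d, F.eval (nd d j) = 0) : PP d ∣ F := by
  unfold PP
  rw [Lagrange.nodal_eq]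
  apply Finset.prod_dvd_of_coprime
  · intro i _ j _ hij
    exact Polynomial.isCoprime_X_sub_C_of_isUnit_sub
      (isUnit_iff_ne_zero.2 (sub_ne_zero.2 fun h => hij (nd_inj d h)))
  · intro i hi
    rw [Polynomial.dvd_iff_isRoot]
    exact h i (by rw [Finset.mem_range] at hi; omega)

lemma PP_eval {d j : ℕ} (hj : j ≤ 2 * d) : (PP d).eval (nd d j) = 0 :=
  Lagrange.eval_nodal_at_node (Finset.mem_range.2 (by omega))

lemma LP_eval {d n j : ℕ} (hn : n ≤ 2 * d) (hj : j ≤ 2 * d) :
    (LP d n).eval (nd d j) = if j = n then 1 else 0 := by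
  split_ifs with h
  · subst h
    exact Lagrange.eval_basis_self (nd_inj d).injOn (Finset.mem_range.2 (by omega))
  · exact Lagrange.eval_basis_of_ne (Ne.symm h) (Finset.mem_range.2 (by omega))

lemma EE_eval {d k n j : ℕ} (hn : n ≤ 2 * d) (hj : j ≤ 2 * d) :
    (EE d (k + 1) n).eval (nd d j) = if j = n then 1 else 0 := by
  simp only [EE, eval_sub, eval_one, eval_pow, LP_eval hn hj]
  split_ifs <;> simp

lemma EE_idem (d k : ℕ) {n : ℕ} (hn : n ≤ 2 * d) :
    PP d ^ (k + 1) ∣ EE d (k + 1) n - EE d (k + 1) n * EE d (k + 1) n := by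
  have h1 : LP d n ^ (k + 1) ∣ EE d (k + 1) n := by
    have : (1 - (1 - LP d n ^ (k + 1))) ∣ 1 ^ (k + 1) - (1 - LP d n ^ (k + 1)) ^ (k + 1) :=
      sub_dvd_pow_sub_pow _ _ _
    rwa [one_pow, sub_sub_cancel] at this
  have h2 : (1 - LP d n) ^ (k + 1) ∣ 1 - EE d (k + 1) n := by
    rw [EE, sub_sub_cancel]
    apply pow_dvd_pow_of_dvd
    have := sub_dvd_pow_sub_pow (1 : ℚ[X]) (LP d n) (k + 1)
    rwa [one_pow] at this
  have h3 : PP d ∣ LP d n * (1 - LP d n) := by
    apply PP_dvd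
    intro j hj
    rw [eval_mul, eval_sub, eval_one, LP_eval hn hj]
    split_ifs <;> simp
  calc PP d ^ (k + 1) ∣ (LP d n * (1 - LP d n)) ^ (k + 1) := pow_dvd_pow_of_dvd h3 _
    _ = LP d n ^ (k + 1) * (1 - LP d n) ^ (k + 1) := mul_pow _ _ _
    _ ∣ EE d (k + 1) n * (1 - EE d (k + 1) n) := mul_dvd_mul h1 h2
    _ = _ := by ring

lemma EE_orth (d k : ℕ) {m n : ℕ} (hm : m ≤ 2 * d) (hn : n ≤ 2 * d) (hmn : m ≠ n) :
    PP d ^ (k + 1) ∣ EE d (k + 1) m * EE d (k + 1) n := by
  have h1 : ∀ n, LP d n ^ (k + 1) ∣ EE d (k + 1) n := by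
    intro n
    have : (1 - (1 - LP d n ^ (k + 1))) ∣ 1 ^ (k + 1) - (1 - LP d n ^ (k + 1)) ^ (k + 1) :=
      sub_dvd_pow_sub_pow _ _ _
    rwa [one_pow, sub_sub_cancel] at this
  have h3 : PP d ∣ LP d m * LP d n := by
    apply PP_dvd
    intro j hj
    rw [eval_mul, LP_eval hm hj, LP_eval hn hj]
    split_ifs with h1 h2
    · exact absurd (h1.symm.trans h2) hmn
    · simp
    · simp
    · simp
  calc PP d ^ (k + 1) ∣ (LP d m * LP d n) ^ (k + 1) := pow_dvd_pow_of_dvd h3 _
    _ = LP d m ^ (k + 1) * LP d n ^ (k + 1) := mul_pow _ _ _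
    _ ∣ _ := mul_dvd_mul (h1 m) (h1 n)

lemma EE_sum (d k : ℕ) :
    PP d ^ (k + 1) ∣ 1 - ∑ n ∈ Finset.range (2 * d + 1), EE d (k + 1) n := by
  set S : ℚ[X] := ∑ n ∈ Finset.range (2 * d + 1), EE d (k + 1) n with hS
  have h1 : PP d ^ (k + 1) ∣ S - S * S := by
    have e1 : S * S = ∑ n ∈ Finset.range (2 * d + 1), ∑ m ∈ Finset.range (2 * d + 1),
        EE d (k + 1) n * EE d (k + 1) m := by
      rw [hS, Finset.sum_mul]
      exact Finset.sum_congr rfl fun _ _ => Finset.mul_sum _ _ _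
    rw [e1, hS, ← Finset.sum_sub_distrib]
    apply Finset.dvd_sum
    intro n hn
    rw [Finset.mem_range] at hn
    rw [← Finset.add_sum_erase _ _ (Finset.mem_range.2 hn), ← sub_sub]
    apply dvd_sub (EE_idem d k (by omega))
    apply Finset.dvd_sum
    intro m hm
    rw [Finset.mem_erase, Finset.mem_range] at hm
    exact EE_orth d k (by omega) (by omega) (Ne.symm hm.1)
  have h2 : PP d ∣ 1 - S := by
    apply PP_dvd
    intro j hj
    rw [eval_sub, eval_one, hS, eval_finsetSum, Finset.sum_eq_single j]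
    · rw [EE_eval hj hj, if_pos rfl, sub_self]
    · intro b hb hbj
      rw [Finset.mem_range] at hb
      rw [EE_eval (by omega) hj, if_neg (Ne.symm hbj)]
    · intro h
      exact absurd (Finset.mem_range.2 (by omega)) h
  have h3 : ∀ i : ℕ, PP d ^ (k + 1) ∣ (1 - S) - (1 - S) ^ (i + 1) := by
    intro i
    induction i with
    | zero => simp
    | succ i ih =>
      have e1 : (1 - S) - (1 - S) ^ (i + 1 + 1) = (1 - S) * ((1 - S) - (1 - S) ^ (i + 1)) +
          (S - S * S) := by ring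
      rw [e1]
      exact dvd_add (dvd_mul_of_dvd_right ih _) h1
  have h4 := dvd_add (h3 k) (pow_dvd_pow_of_dvd h2 (k + 1))
  rwa [sub_add_cancel] at h4

lemma EE_symm (d k : ℕ) {n : ℕ} (hn : n ≤ 2 * d) : (EE d k n).comp (-X) = EE d k (2 * d - n) := by
  have h1 : ∀ x y : ℚ, (Lagrange.basisDivisor x y).comp (-X) = Lagrange.basisDivisor (-x) (-y) := by
    intro x y
    have e1 : (-x - -y)⁻¹ = -(x - y)⁻¹ := by rw [← neg_sub_neg, ← inv_neg]; congr 1; ring
    simp only [Lagrange.basisDivisor, mul_comp, C_comp, sub_comp, X_comp, e1, C_neg]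
    ring
  have h2 : ∀ j ≤ 2 * d, nd d (2 * d - j) = - nd d j := by
    intro j hj
    unfold nd
    rw [Nat.cast_sub hj]
    push_cast
    ring
  have h3 : (LP d n).comp (-X) = LP d (2 * d - n) := by
    unfold LP Lagrange.basis
    rw [prod_comp]
    refine Finset.prod_nbij' (fun j => 2 * d - j) (fun j => 2 * d - j) ?_ ?_ ?_ ?_ ?_
    · intro j hj
      simp only [Finset.mem_erase, Finset.mem_range] at *
      omega
    · intro j hj
      simp only [Finset.mem_erase, Finset.mem_range] at *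
      omega
    · intro j hj
      simp only [Finset.mem_erase, Finset.mem_range] at *
      omega
    · intro j hj
      simp only [Finset.mem_erase, Finset.mem_range] at *
      omega
    · intro j hj
      simp only [Finset.mem_erase, Finset.mem_range] at hj
      rw [h1, h2 n hn, h2 j (by omega)]
  simp only [EE, sub_comp, one_comp, pow_comp, h3]

/-- Inverse square roots. -/
lemma exists_sqrt (k : ℕ) : ∃ S : ℚ[X], S.eval 0 = 1 ∧ X ^ (k + 1) ∣ (1 + X) * S ^ 2 - 1 := by
  induction k with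
  | zero => exact ⟨1, by simp, by simp⟩
  | succ k ih =>
    obtain ⟨S, h0, R, hR⟩ := ih
    refine ⟨S * (1 - C (1 / 2) * (X ^ (k + 1) * R)), ?_, ?_⟩
    · simp [h0]
    · have e1 : (1 + X) * S ^ 2 = 1 + X ^ (k + 1) * R := by rw [← hR]; ring
      have e2 : (C (1 / 2 : ℚ) : ℚ[X]) + C (1 / 2) = 1 := by
        rw [← C_add]; norm_num
      set c : ℚ[X] := C (1 / 2 : ℚ) with hc
      set y : ℚ[X] := X ^ (k + 1) * R with hy
      have e3 : (1 + X) * (S * (1 - c * y)) ^ 2 - 1 =
          y * y * (c ^ 2 * (1 + y) - (c + c)) + y * (1 - (c + c)) := by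
        calc (1 + X) * (S * (1 - c * y)) ^ 2 - 1 = ((1 + X) * S ^ 2) * (1 - c * y) ^ 2 - 1 := by ring
          _ = (1 + y) * (1 - c * y) ^ 2 - 1 := by rw [e1]
          _ = _ := by ring
      rw [e3, e2, sub_self, mul_zero, add_zero]
      have e4 : X ^ (k + 1 + 1) ∣ y * y := by
        rw [hy, show X ^ (k + 1) * R * (X ^ (k + 1) * R) = X ^ (k + 1 + 1) * (X ^ k * R * R) by ring]
        exact dvd_mul_right _ _
      exact dvd_mul_of_dvd_left e4 _

end Pool.Agent.N103.SD
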