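import Pool.Agent.N103.SD.Poly
import Mathlib.Algebra.Algebra.Basic
import Mathlib.LinearAlgebra.Basis.VectorSpace

/-!
# Witt cancellation in rings with an anti-involution
-/

set_option autoImplicit false
set_option linter.unusedSectionVars false

namespace Pool.Agent.N103.SD

open Polynomial

variable {A : Type*} [Ring A] [Algebra ℚ A] {K V : Type*} [Field K] [AddCommGroup V] [Module K V]

/-- The situation: an anti-involution `t`, an action `ρ` on a graded space, and a symmetric
idempotent `q` such that the elements of the corner of `q` acting as zero are nilpotent. -/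
structure Sit (t : A →+ A) (ρ : A →+* Module.End K V) (G : ℤ → Submodule K V) (d : ℕ) (q : A) :
    Prop where
  tmul : ∀ a b, t (a * b) = t b * t a
  tt : ∀ a, t (t a) = a
  tone : t 1 = 1
  ext : ∀ f : Module.End K V, (∀ m, ∀ x ∈ G m, f x = 0) → f = 0
  low : ∀ m : ℤ, m < 0 → G m = ⊥
  top : ∀ m : ℤ, 2 * d < m → G m = ⊥
  pres : ∀ a m x, x ∈ G m → ρ a x ∈ G m
  qq : q * q = q
  tq : t q = q
  nil : ∀ c, q * c = c → c * q = c → ρ c = 0 → IsNilpotent c

/-- A self-dual decomposition of the idempotent `q`, lifting the grading. -/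
structure Dec (t : A →+ A) (ρ : A →+* Module.End K V) (G : ℤ → Submodule K V) (d : ℕ) (q : A)
    (e : ℕ → A) : Prop where
  out : ∀ n, 2 * d < n → e n = 0
  mul : ∀ m n, e m * e n = if m = n then e m else 0
  sum : ∑ n ∈ Finset.range (2 * d + 1), e n = q
  act : ∀ (n : ℕ) (m : ℤ) x, x ∈ G m → ρ (e n) x = if m = n then ρ q x else 0
  dual : ∀ n ≤ 2 * d, t (e n) = e (2 * d - n)

section

variable {t : A →+ A} {ρ : A →+* Module.End K V} {G : ℤ → Submodule K V} {d : ℕ} {q : A}

lemma Dec.left {e : ℕ → A} (h : Dec t ρ G d q e) (n : ℕ) : q * e n = e n := by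
  by_cases hn : 2 * d < n
  · rw [h.out n hn, mul_zero]
  · rw [← h.sum, Finset.sum_mul, Finset.sum_eq_single n]
    · rw [h.mul, if_pos rfl]
    · intro m _ hm
      rw [h.mul, if_neg hm]
    · intro h'
      exact absurd (Finset.mem_range.2 (by omega)) h'

lemma Dec.right {e : ℕ → A} (h : Dec t ρ G d q e) (n : ℕ) : e n * q = e n := by
  by_cases hn : 2 * d < n
  · rw [h.out n hn, zero_mul]
  · rw [← h.sum, Finset.mul_sum, Finset.sum_eq_single n]
    · rw [h.mul, if_pos rfl]
    · intro m _ hm
      rw [h.mul, if_neg (Ne.symm hm)]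
    · intro h'
      exact absurd (Finset.mem_range.2 (by omega)) h'

lemma Dec.idem {e : ℕ → A} (h : Dec t ρ G d q e) : q * q = q := by
  nth_rw 2 [← h.sum]
  rw [Finset.mul_sum, Finset.sum_congr rfl fun n _ => h.left n, h.sum]

lemma t_smul (t : A →+ A) (c : ℚ) (a : A) : t (c • a) = c • t a := map_rat_smul t c a

/-- The anti-involution on polynomials in an element. -/
lemma t_aeval (hmul : ∀ a b, t (a * b) = t b * t a) (h1 : t 1 = 1) (D : A) (F : ℚ[X]) :
    t (aeval D F) = aeval (t D) F := by
  have hpow : ∀ n : ℕ, t (D ^ n) = t D ^ n := by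
    intro n
    induction n with
    | zero => rw [pow_zero, pow_zero, h1]
    | succ n ih => rw [pow_succ, hmul, ih, ← pow_succ']
  induction F using Polynomial.induction_on' with
  | add p q hp hq => rw [map_add, map_add, map_add, hp, hq]
  | monomial n a =>
    rw [aeval_monomial, aeval_monomial, Algebra.algebraMap_eq_smul_one, Algebra.smul_mul_assoc,
      one_mul, Algebra.smul_mul_assoc, one_mul, t_smul, hpow]

lemma Sit.act_smul (_h : Sit t ρ G d q) (z : ℤ) (c : ℚ) (a : A) (x : V) :
    ρ (c • a) (z • x) = ρ (((z : ℚ) * c) • a) x := by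
  have e1 : ((z : ℚ) * c) • a = z • (c • a) := by
    rw [mul_smul, Int.cast_smul_eq_zsmul]
  rw [e1, map_zsmul ρ, map_zsmul (ρ (c • a))]
  rfl

/-- Polynomials in a derivation of the corner. -/
lemma Sit.act_aeval (h : Sit t ρ G d q) {D : A}
    (hD : ∀ m x, x ∈ G m → ρ D x = (2 * (m - d) : ℤ) • ρ q x) (F : ℚ[X]) :
    ∀ (m : ℤ) (x : V), x ∈ G m →
      ρ (q * aeval D F) x = ρ (F.eval (2 * ((m : ℚ) - d)) • q) x := by
  have hqq : ∀ x, ρ q (ρ q x) = ρ q x := by
    intro x
    rw [← Module.End.mul_apply, ← map_mul, h.qq]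
  induction F using Polynomial.induction_on with
  | C a =>
    intro m x _
    rw [aeval_C, Algebra.algebraMap_eq_smul_one, mul_smul_comm, mul_one, eval_C]
  | add F F' hF hF' =>
    intro m x hx
    rw [map_add, mul_add, map_add, LinearMap.add_apply, hF m x hx, hF' m x hx, eval_add, add_smul,
      map_add, LinearMap.add_apply]
  | monomial n a ih =>
    intro m x hx
    have e1 : (C a * X ^ (n + 1) : ℚ[X]) = C a * X ^ n * X := by rw [pow_succ, mul_assoc]
    rw [e1, map_mul (aeval D), aeval_X, ← mul_assoc, map_mul ρ, Module.End.mul_apply, hD m x hx,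
      ih m _ ((G m).smul_of_tower_mem _ (h.pres q m x hx)), h.act_smul]
    have e3 : eval (2 * ((m : ℚ) - d)) (C a * X ^ n * X) =
        eval (2 * ((m : ℚ) - d)) (C a * X ^ n) * (2 * ((m : ℚ) - d)) := by
      rw [eval_mul, eval_X]
    rw [e3]
    have e2 : ρ (((((2 * (m - d) : ℤ)) : ℚ) * eval (2 * ((m : ℚ) - d)) (C a * X ^ n)) • q)
        (ρ q x) = ρ (((((2 * (m - d) : ℤ)) : ℚ) * eval (2 * ((m : ℚ) - d)) (C a * X ^ n)) • q)
        x := by
      rw [← Module.End.mul_apply, ← map_mul, Algebra.smul_mul_assoc, h.qq]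
    rw [e2]
    congr 3
    push_cast
    ring

/-- **Symmetric idempotents from an antisymmetric derivation.** -/
theorem Sit.exists_dec (h : Sit t ρ G d q) {D : A} (hqD : q * D = D) (hDq : D * q = D)
    (htD : t D = -D) (hD : ∀ m x, x ∈ G m → ρ D x = (2 * (m - d) : ℤ) • ρ q x) :
    ∃ e, Dec t ρ G d q e := by
  have hcomm : Commute q D := by rw [Commute, SemiconjBy, hqD, hDq]
  have hcF : ∀ F : ℚ[X], Commute q (aeval D F) := by
    intro F
    have : Commute (aeval D F) q := by
      induction F using Polynomial.induction_on' with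
      | add p r hp hr => rw [map_add]; exact hp.add_left hr
      | monomial n a =>
        rw [aeval_monomial]
        exact (show Commute (algebraMap ℚ A a) q from Algebra.commutes a q).mul_left
          ((hcomm.symm).pow_left n)
    exact this.symm
  have hnode : ∀ n : ℕ, (2 * (((n : ℤ) : ℚ) - d) : ℚ) = nd d n := fun n => by
    unfold nd; push_cast; rfl
  have hP0 : ρ (q * aeval D (PP d)) = 0 := by
    apply h.ext
    intro m x hx
    rcases lt_or_ge m 0 with hm | hm
    · rw [h.low m hm, Submodule.mem_bot] at hx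
      rw [hx, map_zero]
    · rcases lt_or_ge (2 * (d : ℤ)) m with hm' | hm'
      · rw [h.top m hm', Submodule.mem_bot] at hx
        rw [hx, map_zero]
      · obtain ⟨n, rfl⟩ := Int.eq_ofNat_of_zero_le hm
        rw [h.act_aeval hD (PP d) _ x hx, hnode, PP_eval (by omega), zero_smul, map_zero]
        rfl
  obtain ⟨k, hk⟩ := h.nil (q * aeval D (PP d)) (by rw [← mul_assoc, h.qq])
    (by rw [mul_assoc, ← (hcF (PP d)).eq, ← mul_assoc, h.qq]) hP0
  have hk1 : q * aeval D (PP d ^ (k + 1)) = 0 := by
    have e1 : ∀ j : ℕ, (q * aeval D (PP d)) ^ (j + 1) = q * aeval D (PP d) ^ (j + 1) := by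
      intro j
      rw [(hcF (PP d)).mul_pow]
      congr 1
      have e2 : IsIdempotentElem q := h.qq
      exact e2.pow_succ_eq j
    rw [map_pow, ← e1, pow_succ, hk, zero_mul]
  have hdvd : ∀ F : ℚ[X], PP d ^ (k + 1) ∣ F → q * aeval D F = 0 := by
    rintro F ⟨R, rfl⟩
    rw [map_mul, ← mul_assoc, hk1, zero_mul]
  have hmul : ∀ F F' : ℚ[X], (q * aeval D F) * (q * aeval D F') = q * aeval D (F * F') := by
    intro F F'
    rw [map_mul, ← mul_assoc, mul_assoc q _ q, ← (hcF F).eq, ← mul_assoc, h.qq, mul_assoc]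
  refine ⟨fun n => if n ≤ 2 * d then q * aeval D (EE d (k + 1) n) else 0, ?_, ?_, ?_, ?_, ?_⟩
  · intro n hn
    exact if_neg (by omega)
  · intro m n
    by_cases hm : m ≤ 2 * d
    · by_cases hn : n ≤ 2 * d
      · rw [if_pos hm, if_pos hn, hmul]
        split_ifs with hmn
        · subst hmn
          have e1 := hdvd _ (EE_idem d k hm)
          rw [map_sub, mul_sub] at e1
          exact (sub_eq_zero.1 e1).symm
        · exact hdvd _ (EE_orth d k hm hn hmn)
      · rw [if_neg hn, mul_zero, if_neg (by omega)]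
    · rw [if_neg hm, zero_mul]
      split_ifs <;> rfl
  · have e1 : ∀ n ∈ Finset.range (2 * d + 1), (if n ≤ 2 * d then q * aeval D (EE d (k + 1) n)
        else 0) = q * aeval D (EE d (k + 1) n) := by
      intro n hn
      rw [Finset.mem_range] at hn
      exact if_pos (by omega)
    rw [Finset.sum_congr rfl e1, ← Finset.mul_sum, ← map_sum]
    have e2 := hdvd _ (EE_sum d k)
    rw [map_sub, map_one, mul_sub, mul_one] at e2
    exact (sub_eq_zero.1 e2).symm
  · intro n m x hx
    rcases lt_or_ge m 0 with hm | hm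
    · rw [h.low m hm, Submodule.mem_bot] at hx
      rw [hx, map_zero, map_zero]
      split_ifs <;> rfl
    · rcases lt_or_ge (2 * (d : ℤ)) m with hm' | hm'
      · rw [h.top m hm', Submodule.mem_bot] at hx
        rw [hx, map_zero, map_zero]
        split_ifs <;> rfl
      · obtain ⟨j, rfl⟩ := Int.eq_ofNat_of_zero_le hm
        by_cases hn : n ≤ 2 * d
        · rw [if_pos hn, h.act_aeval hD _ _ x hx, hnode, EE_eval hn (by omega)]
          by_cases hjn : j = n
          · rw [if_pos hjn, if_pos (by rw [hjn]), one_smul]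
          · rw [if_neg hjn, if_neg (by exact_mod_cast hjn), zero_smul, map_zero]
            rfl
        · rw [if_neg hn, map_zero, if_neg (by omega)]
          rfl
  · intro n hn
    rw [if_pos hn, if_pos (Nat.sub_le _ _), h.tmul, h.tq, t_aeval h.tmul h.tone, htD,
      ← EE_symm d (k + 1) hn, aeval_comp, map_neg, aeval_X]
    have e1 : aeval (-D) (EE d (k + 1) n) = aeval D ((EE d (k + 1) n).comp (-X)) := by
      rw [aeval_comp, map_neg, aeval_X]
    rw [e1, (hcF _).eq]

end

end Pool.Agent.N103.SD
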