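import Pool.Agent.N103.SD.Main

/-!
# Transport of self-dual Chow-Kunneth decompositions to a direct factor
-/

open CategoryTheory AlgebraicGeometry

set_option autoImplicit false
set_option linter.unusedSectionVars false

universe u v w

namespace Pool.Agent.N103.SD

open Pool.Agent.H914 Pool.Agent.H914.VarClass Pool.Agent.H914.VarClass.Obj Pool.Agent.W492.BB
  Pool.Agent.W550.Corr Pool.Agent.TH133 Pool.Agent.Y107

variable {k : Type u} [Field k] {𝒱 : VarClass k}

variable {C : TheoryData.{u, v, 0} 𝒱 ℚ} [hC : IsChowProj C] {K : Type w} [Field K]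
  {H : WeilTheoryData.{u, v, w} C K} [hH : IsWeilProj H] {X Y : 𝒱.Obj}

/-- The index in `X` of an index in `Y`. -/
def ix (c d m : ℕ) : ℕ := min (m - 2 * c) (2 * d)

lemma ix_le (c d m : ℕ) : ix c d m ≤ 2 * d := min_le_right _ _

lemma ix_add {c d m : ℕ} (hm : m ≤ 2 * d) : ix c d (m + 2 * c) = m := by
  unfold ix
  omega

lemma ix_symm (c d m : ℕ) :
    ix c d (2 * (d + 2 * c) - m) = 2 * d - ix c d m := by
  unfold ix
  omega

section chow

include hC

/-- The regrouped decomposition. -/
noncomputable def rg (C : TheoryData.{u, v, 0} 𝒱 ℚ) {Y : 𝒱.Obj} (c d : ℕ)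
    (r : ℕ → C.A (Y.prod Y)) (n : ℕ) : C.A (Y.prod Y) :=
  ∑ i ∈ Finset.range (2 * Y.dim + 1), if ix c d i = n then r i else 0

lemma tp_factor {a : C.A (X.prod Y)} {b : C.A (Y.prod X)} {N : ℚ} (hN : N ≠ 0)
    (hb : b = N⁻¹ • tp C a) (f : C.A (Y.prod Y)) :
    tp C (C.comp (C.comp a f) b) = C.comp (C.comp a (tp C f)) b := by
  have h1 : tp C a = N • b := by rw [hb, smul_smul, mul_inv_cancel₀ hN, one_smul]
  have h2 : tp C b = N⁻¹ • a := by rw [hb, tp_smul, tp_tp]
  have h3 : ∀ Γ : C.A (Y.prod X), C.comp (N⁻¹ • a) Γ = N⁻¹ • C.comp a Γ :=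
    fun Γ => LinearMap.map_smul₂ (compL C) _ _ _
  have h4 : ∀ Γ : C.A (Y.prod Y), C.comp Γ (N • b) = N • C.comp Γ b :=
    fun Γ => map_smul (compL C Γ) _ _
  have h5 : ∀ Γ : C.A (Y.prod X), C.comp a (N • Γ) = N • C.comp a Γ :=
    fun Γ => map_smul (compL C a) _ _
  rw [tp_comp C (ch_comm C), tp_comp C (ch_comm C), h1, h2, h3, h4, h5, smul_smul,
    inv_mul_cancel₀ hN, one_smul, comp_assoc]

lemma tp_factor' {a : C.A (X.prod Y)} {b : C.A (Y.prod X)} {N : ℚ} (hN : N ≠ 0)
    (hb : b = N⁻¹ • tp C a) (f : C.A (X.prod X)) :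
    tp C (C.comp (C.comp b f) a) = C.comp (C.comp b (tp C f)) a := by
  have h1 : tp C a = N • b := by rw [hb, smul_smul, mul_inv_cancel₀ hN, one_smul]
  have h2 : tp C b = N⁻¹ • a := by rw [hb, tp_smul, tp_tp]
  have h3 : ∀ Γ : C.A (X.prod Y), C.comp (N • b) Γ = N • C.comp b Γ :=
    fun Γ => LinearMap.map_smul₂ (compL C) _ _ _
  have h4 : ∀ Γ : C.A (X.prod X), C.comp Γ (N⁻¹ • a) = N⁻¹ • C.comp Γ a :=
    fun Γ => map_smul (compL C Γ) _ _
  have h5 : ∀ Γ : C.A (X.prod Y), C.comp b (N⁻¹ • Γ) = N⁻¹ • C.comp b Γ :=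
    fun Γ => map_smul (compL C b) _ _
  rw [tp_comp C (ch_comm C), tp_comp C (ch_comm C), h1, h2, h3, h4, h5, smul_smul,
    mul_inv_cancel₀ hN, one_smul, comp_assoc]

/-- Compression to the factor is multiplicative. -/
lemma comp_factor {a : C.A (X.prod Y)} {b : C.A (Y.prod X)} {f g : C.A (Y.prod Y)}
    (hf : C.comp f (C.comp b a) = f) :
    C.comp (C.comp (C.comp a f) b) (C.comp (C.comp a g) b) =
      C.comp (C.comp a (C.comp f g)) b := by
  rw [← comp_assoc C (C.comp (C.comp a f) b) (C.comp a g) b,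
    ← comp_assoc C (C.comp (C.comp a f) b) a g, comp_assoc C (C.comp a f) b a,
    comp_assoc C a f (C.comp b a), hf, comp_assoc C a f g]

lemma comp_factor' {a : C.A (X.prod Y)} {b : C.A (Y.prod X)} (hab : C.comp a b = dg C X)
    (f g : C.A (X.prod X)) :
    C.comp (C.comp (C.comp b f) a) (C.comp (C.comp b g) a) =
      C.comp (C.comp b (C.comp f g)) a := by
  rw [← comp_assoc C (C.comp (C.comp b f) a) (C.comp b g) a,
    ← comp_assoc C (C.comp (C.comp b f) a) b g, comp_assoc C (C.comp b f) a b, hab, comp_dg,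
    comp_assoc C b f g]

end chow

include hC hH

/-- From the motive `(Y, b ∘ a)` to `X`. -/
theorem exists_of_factor {c : ℕ} (hd : Y.dim = X.dim + 2 * c) {a : C.A (X.prod Y)}
    {b : C.A (Y.prod X)} {N : ℚ} (hN : N ≠ 0) (ha : a ∈ C.gr (X.prod Y) ((X.dim : ℤ) + c))
    (hbm : b ∈ C.gr (Y.prod X) ((Y.dim : ℤ) + -c)) (hb : b = N⁻¹ • tp C a)
    (hab : C.comp a b = dg C X) {r : ℕ → C.A (Y.prod Y)} (hr : SelfDualCK H (C.comp b a) r) :
    IsCK H X (fun n => C.comp (C.comp a (rg C c X.dim r n)) b) ∧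
      IsSelfDual C (fun n => C.comp (C.comp a (rg C c X.dim r n)) b) := by
  set R := rg C c X.dim r with hR
  have hrr : ∀ i j, C.comp (r i) (r j) = if i = j then r i else 0 := by
    intro i j
    split_ifs with h
    · subst h
      exact hr.idem i
    · exact hr.orth i j h
  have hrR : ∀ i ≤ 2 * Y.dim, ∀ n, C.comp (r i) (R n) = if ix c X.dim i = n then r i else 0 := by
    intro i hi n
    rw [hR, rg, comp_sum, Finset.sum_eq_single i]
    · split_ifs
      · rw [hr.idem]
      · rw [comp_zero]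
    · intro j _ hj
      split_ifs
      · exact hr.orth i j (Ne.symm hj)
      · rw [comp_zero]
    · intro h
      exact absurd (Finset.mem_range.2 (by omega)) h
  have hRR : ∀ m n, C.comp (R m) (R n) = if m = n then R m else 0 := by
    intro m n
    have e1 : C.comp (R m) (R n) = ∑ i ∈ Finset.range (2 * Y.dim + 1),
        if ix c X.dim i = m then (if ix c X.dim i = n then r i else 0) else 0 := by
      conv_lhs => rw [show R m = ∑ i ∈ Finset.range (2 * Y.dim + 1),
        if ix c X.dim i = m then r i else 0 from rfl]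
      rw [sum_comp]
      refine Finset.sum_congr rfl fun i hi => ?_
      rw [Finset.mem_range] at hi
      split_ifs with h1 h2
      · rw [hrR i (by omega), if_pos h2]
      · rw [hrR i (by omega), if_neg h2]
      · exact zero_comp C _
    rw [e1]
    by_cases hmn : m = n
    · subst hmn
      rw [if_pos rfl]
      refine Finset.sum_congr rfl fun i _ => ?_
      split_ifs <;> rfl
    · rw [if_neg hmn]
      apply Finset.sum_eq_zero
      intro i _
      split_ifs with h1 h2
      · exact absurd (h1.symm.trans h2) hmn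
      · rfl
      · rfl
  have hRsum : ∑ n ∈ Finset.range (2 * X.dim + 1), R n = C.comp b a := by
    rw [← hr.sum, hR]
    simp only [rg]
    rw [Finset.sum_comm]
    refine Finset.sum_congr rfl fun i _ => ?_
    rw [Finset.sum_ite_eq, if_pos]
    rw [Finset.mem_range]
    have := ix_le c X.dim i
    omega
  have hRdeg : ∀ n, R n ∈ C.gr (Y.prod Y) Y.dim := by
    intro n
    refine Submodule.sum_mem _ fun i _ => ?_
    split_ifs
    · exact hr.deg i
    · exact Submodule.zero_mem _
  have hRout : ∀ n, 2 * X.dim < n → R n = 0 := by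
    intro n hn
    apply Finset.sum_eq_zero
    intro i _
    rw [if_neg]
    have := ix_le c X.dim i
    omega
  have hba : C.comp (C.comp b a) (C.comp b a) = C.comp b a := by
    rw [comp_assoc C b a, ← comp_assoc C a b a, hab, dg_comp]
  have hRe : ∀ n, C.comp (R n) (C.comp b a) = R n := by
    intro n
    rw [← hRsum, comp_sum]
    by_cases hn : n ≤ 2 * X.dim
    · rw [Finset.sum_eq_single n]
      · rw [hRR, if_pos rfl]
      · intro m _ hm
        rw [hRR, if_neg (Ne.symm hm)]
      · intro h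
        exact absurd (Finset.mem_range.2 (by omega)) h
    · rw [hRout n (by omega)]
      apply Finset.sum_eq_zero
      intro m _
      exact zero_comp C _
  have hRact : ∀ (n j : ℕ) (y : H.A Y), j ≤ 2 * Y.dim → H.Deg j y →
      H.act (H.cl (R n)) y = if ix c X.dim j = n then H.act (H.cl (C.comp b a)) y else 0 := by
    intro n j y hj hy
    have e1 : H.act (H.cl (R n)) y = ∑ i ∈ Finset.range (2 * Y.dim + 1),
        H.act (H.cl (if ix c X.dim i = n then r i else 0)) y := by
      have h1 : H.cl (R n) = ∑ i ∈ Finset.range (2 * Y.dim + 1),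
          H.cl (if ix c X.dim i = n then r i else 0) := map_sum H.cl _ _
      rw [h1, act_sum]
    rw [e1, Finset.sum_eq_single j]
    · split_ifs
      · exact hr.act_self j y hy
      · exact actH_zero H y
    · intro i _ hi
      split_ifs
      · exact hr.act_ne i j y (by exact_mod_cast Ne.symm hi) hy
      · exact actH_zero H y
    · intro h
      exact absurd (Finset.mem_range.2 (by omega)) h
  have haH : ∀ {m : ℤ} {x : H.A X}, x ∈ H.gr X m → H.act (H.cl a) x ∈ H.gr Y (m + 2 * c) :=
    fun hx => actH_mem H ha hx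
  have hfin : ∀ (n : ℕ) (m : ℤ) (x : H.A X), x ∈ H.gr X m →
      H.act (H.cl (C.comp (C.comp a (R n)) b)) x = if m = n then x else 0 := by
    intro n m x hx
    by_cases hx0 : x = 0
    · rw [hx0, TheoryData.act_map_zero]
      split_ifs <;> rfl
    have hm0 := nonneg_of_mem H hx hx0
    have hm1 : m ≤ 2 * X.dim := by
      by_contra hcon
      rw [gr_top H (by omega)] at hx
      exact hx0 ((Submodule.mem_bot _).1 hx)
    obtain ⟨m, rfl⟩ := Int.eq_ofNat_of_zero_le hm0
    have h1 : H.Deg ((m + 2 * c : ℕ) : ℤ) (H.act (H.cl a) x) := by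
      have := haH hx
      push_cast
      exact this
    rw [actH_comp, actH_comp, hRact n (m + 2 * c) _ (by omega) h1, ix_add (by omega)]
    by_cases hmn : m = n
    · rw [if_pos hmn, if_pos (by rw [hmn]), ← actH_comp, ← actH_comp, comp_assoc C b, hab,
        comp_dg, hab, actH_dg]
    · rw [if_neg hmn, if_neg (by exact_mod_cast hmn), TheoryData.act_map_zero]
  refine ⟨⟨?_, ?_, ?_, ?_, ?_, ?_, ?_⟩, ?_⟩
  · intro n
    have h1 : R n ∈ C.gr (Y.prod Y) ((Y.dim : ℤ) + 0) := by rw [add_zero]; exact hRdeg n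
    have h2 := comp_mem C (comp_mem C ha h1) hbm
    rwa [show (X.dim : ℤ) + (c + 0 + -c) = X.dim by ring] at h2
  · intro n hn
    rw [hRout n hn, comp_zero, zero_comp]
  · intro n
    rw [comp_factor (hRe n), hRR, if_pos rfl]
  · intro m n hmn
    rw [comp_factor (hRe m), hRR, if_neg hmn, comp_zero, zero_comp]
  · have e1 : ∑ n ∈ Finset.range (2 * X.dim + 1), C.comp (C.comp a (R n)) b =
        C.comp (C.comp a (C.comp b a)) b := by
      rw [← hRsum, comp_sum, sum_comp]
    rw [e1, comp_assoc C a, comp_assoc C b, hab, comp_dg, hab]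
  · intro n x hx
    have := hfin n n x hx
    rwa [if_pos rfl] at this
  · intro n m x hm hx
    have := hfin n m x hx
    rwa [if_neg hm] at this
  · intro n hn
    have h1 : tp C (R n) = R (2 * X.dim - n) := by
      rw [hR]
      simp only [rg]
      rw [tp_sum, ← Finset.sum_range_reflect]
      refine Finset.sum_congr rfl fun i hi => ?_
      rw [Finset.mem_range] at hi
      have e2 : 2 * Y.dim + 1 - 1 - i = 2 * Y.dim - i := by omega
      have e3 : 2 * Y.dim = 2 * (X.dim + 2 * c) := by rw [hd]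
      have e4 : ix c X.dim (2 * Y.dim - i) = 2 * X.dim - ix c X.dim i := by
        rw [e3]
        exact ix_symm _ _ _
      have e5 := ix_le c X.dim i
      rw [e2, e4]
      by_cases h2 : ix c X.dim i = 2 * X.dim - n
      · rw [if_pos (by omega), if_pos h2, hr.selfDual _ (by omega)]
        congr 1
        omega
      · rw [if_neg (by omega), if_neg h2, tp_zero]
    change tp C (C.comp (C.comp a (R n)) b) = C.comp (C.comp a (R (2 * X.dim - n))) b
    rw [tp_factor hN hb, h1]

/-- From `X` to the motive `(Y, b ∘ a)`. -/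
theorem exists_to_factor {c : ℕ} (hd : Y.dim = X.dim + 2 * c) {a : C.A (X.prod Y)}
    {b : C.A (Y.prod X)} {N : ℚ} (hN : N ≠ 0) (ha : a ∈ C.gr (X.prod Y) ((X.dim : ℤ) + c))
    (hbm : b ∈ C.gr (Y.prod X) ((Y.dim : ℤ) + -c)) (hb : b = N⁻¹ • tp C a)
    (hab : C.comp a b = dg C X) {π : ℕ → C.A (X.prod X)} (hπ : IsCK H X π)
    (hπ' : IsSelfDual C π) :
    SelfDualCK H (C.comp b a) (fun n => if 2 * c ≤ n then C.comp (C.comp b (π (n - 2 * c))) a
      else 0) := by
  have hbH : ∀ {m : ℤ} {y : H.A Y}, y ∈ H.gr Y m → H.act (H.cl b) y ∈ H.gr X (m + 2 * -c) :=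
    fun hy => actH_mem H hbm hy
  have hact : ∀ (n : ℕ) (m : ℤ) (y : H.A Y), y ∈ H.gr Y m →
      H.act (H.cl (if 2 * c ≤ n then C.comp (C.comp b (π (n - 2 * c))) a else 0)) y =
        if m = n then H.act (H.cl (C.comp b a)) y else 0 := by
    intro n m y hy
    have h1 := hbH hy
    split_ifs with h2 h3 h3
    · subst h3
      rw [actH_comp, actH_comp, hπ.act_self (n - 2 * c) _ (by
        rwa [show ((n - 2 * c : ℕ) : ℤ) = (n : ℤ) + 2 * -c by omega]), actH_comp]
    · rw [actH_comp, actH_comp, hπ.act_ne (n - 2 * c) _ _ (by omega) h1,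
        TheoryData.act_map_zero]
    · subst h3
      rw [H.gr_neg X _ (by omega)] at h1
      rw [actH_comp, (Submodule.mem_bot _).1 h1, TheoryData.act_map_zero]
      exact actH_zero H y
    · exact actH_zero H y
  refine ⟨?_, ?_, ?_, ?_, ?_, ?_, ?_, ?_⟩
  · intro n
    split_ifs
    · have h1 : π (n - 2 * c) ∈ C.gr (X.prod X) ((X.dim : ℤ) + 0) := by
        rw [add_zero]; exact hπ.deg _
      have h2 := comp_mem C (comp_mem C hbm h1) ha
      rwa [show (Y.dim : ℤ) + (-c + 0 + c) = Y.dim by ring] at h2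
    · exact Submodule.zero_mem _
  · intro n hn
    rw [hπ.out (n - 2 * c) (by omega), comp_zero, zero_comp]
    split_ifs <;> rfl
  · intro n
    split_ifs
    · rw [comp_factor' hab, hπ.idem]
    · exact comp_zero C _
  · intro m n hmn
    split_ifs
    · rw [comp_factor' hab, hπ.orth _ _ (by omega), comp_zero, zero_comp]
    · exact comp_zero C _
    · exact zero_comp C _
    · exact comp_zero C _
  · have e1 : 2 * Y.dim + 1 = 2 * c + (2 * X.dim + 1 + 2 * c) := by omega
    rw [e1, Finset.sum_range_add, Finset.sum_range_add]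
    have e2 : ∑ x ∈ Finset.range (2 * c), (if 2 * c ≤ x then C.comp (C.comp b (π (x - 2 * c))) a
        else 0) = 0 := by
      apply Finset.sum_eq_zero
      intro x hx
      rw [Finset.mem_range] at hx
      rw [if_neg (by omega)]
    have e3 : ∑ x ∈ Finset.range (2 * c), (if 2 * c ≤ 2 * c + (2 * X.dim + 1 + x) then
        C.comp (C.comp b (π (2 * c + (2 * X.dim + 1 + x) - 2 * c))) a else 0) = 0 := by
      apply Finset.sum_eq_zero
      intro x _
      rw [hπ.out _ (by omega), comp_zero, zero_comp]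
      split_ifs <;> rfl
    have e4 : ∑ x ∈ Finset.range (2 * X.dim + 1), (if 2 * c ≤ 2 * c + x then
        C.comp (C.comp b (π (2 * c + x - 2 * c))) a else 0) = C.comp b a := by
      have e5 : ∀ x ∈ Finset.range (2 * X.dim + 1), (if 2 * c ≤ 2 * c + x then
          C.comp (C.comp b (π (2 * c + x - 2 * c))) a else 0) = C.comp (C.comp b (π x)) a := by
        intro x _
        rw [if_pos (by omega), Nat.add_sub_cancel_left]
      rw [Finset.sum_congr rfl e5, ← sum_comp, ← comp_sum, hπ.sum, comp_dg]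
    rw [e2, e3, e4, zero_add, add_zero]
  · intro n y hy
    have := hact n n y hy
    rwa [if_pos rfl] at this
  · intro n m y hm hy
    have := hact n m y hy
    rwa [if_neg hm] at this
  · intro n hn
    by_cases h1 : 2 * c ≤ n
    · by_cases h2 : n - 2 * c ≤ 2 * X.dim
      · rw [if_pos h1, if_pos (by omega), tp_factor' hN hb, hπ' _ h2]
        congr 3
        omega
      · rw [if_pos h1, if_neg (by omega), hπ.out _ (by omega), comp_zero, zero_comp, tp_zero]
    · rw [if_neg h1, if_pos (by omega), hπ.out _ (by omega), comp_zero, zero_comp, tp_zero]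

end Pool.Agent.N103.SD
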