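import Pool.Agent.N103.SD.Ring

/-!
# Witt cancellation: moving a self-dual decomposition
-/

set_option autoImplicit false
set_option linter.unusedSectionVars false

namespace Pool.Agent.N103.SD

open Polynomial

variable {A : Type*} [Ring A] [Algebra ℚ A] {K V : Type*} [Field K] [AddCommGroup V] [Module K V]

section

variable {t : A →+ A} {ρ : A →+* Module.End K V} {G : ℤ → Submodule K V} {d : ℕ} {q : A}

/-- Polynomials in an element commute with what commutes with it. -/
lemma commute_aeval {x y : A} (F : ℚ[X]) (hy : Commute x y) : Commute (aeval x F) y := by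
  induction F using Polynomial.induction_on' with
  | add p r hp hr => rw [map_add]; exact hp.add_left hr
  | monomial n a =>
    rw [aeval_monomial]
    exact (show Commute (algebraMap ℚ A a) y from Algebra.commutes a y).mul_left (hy.pow_left n)

/-- A symmetric idempotent and a close isometric embedding: there is an isometry which extends the
embedding. -/
lemma exists_isometry (hmul : ∀ a b, t (a * b) = t b * t a) (htt : ∀ a, t (t a) = a)
    (hone : t 1 = 1) {q Ψ b : A} (hqq : q * q = q) (htq : t q = q) (hΨ : t Ψ * Ψ = q)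
    (hΨq : Ψ * q = Ψ) (hbq : b * q = b) (hqb : q * b = b) (hba : b * (q + t Ψ * q) = q)
    (hab : (q + t Ψ * q) * b = q) :
    t (1 - (q + Ψ) * b * (q + t Ψ)) * (1 - (q + Ψ) * b * (q + t Ψ)) = 1 ∧
    (1 - (q + Ψ) * b * (q + t Ψ)) * t (1 - (q + Ψ) * b * (q + t Ψ)) = 1 ∧
    (1 - (q + Ψ) * b * (q + t Ψ)) * q = -Ψ := by
  have htΨ : t (t Ψ) = Ψ := htt Ψ
  have hqΨ : q * t Ψ = t Ψ := by
    have := congrArg t hΨq
    rwa [hmul, htq] at this
  have htb1 : q * t b = t b := by
    have := congrArg t hbq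
    rwa [hmul, htq] at this
  have htb2 : t b * q = t b := by
    have := congrArg t hqb
    rwa [hmul, htq] at this
  have hta : t (q + t Ψ * q) = q + q * Ψ := by rw [map_add, hmul, htq, htΨ]
  have hba' : (q + q * Ψ) * t b = q := by
    have := congrArg t hba
    rwa [hmul, htq, hta] at this
  have hab' : t b * (q + q * Ψ) = q := by
    have := congrArg t hab
    rwa [hmul, htq, hta] at this
  have hs : t (1 - (q + Ψ) * b * (q + t Ψ)) = 1 - (q + Ψ) * t b * (q + t Ψ) := by
    rw [map_sub, hone, hmul, hmul, map_add, map_add, htΨ, htq, mul_assoc]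
  have huu : (q + t Ψ) * (q + Ψ) = (q + t Ψ * q) + (q + q * Ψ) := by
    rw [add_mul, mul_add, mul_add, hqq, hΨ]
    abel
  rw [hs]
  refine ⟨?_, ?_, ?_⟩
  · have e1 : t b * ((q + t Ψ * q) + (q + q * Ψ)) * b = t b + b := by
      rw [mul_add, add_mul, mul_assoc (t b) (q + t Ψ * q), hab, htb2, hab', hqb]
    calc (1 - (q + Ψ) * t b * (q + t Ψ)) * (1 - (q + Ψ) * b * (q + t Ψ))
        = 1 - (q + Ψ) * (t b + b - t b * ((q + t Ψ) * (q + Ψ)) * b) * (q + t Ψ) := by
          noncomm_ring
      _ = 1 := by rw [huu, e1, sub_self, mul_zero, zero_mul, sub_zero]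
  · have e1 : b * ((q + t Ψ * q) + (q + q * Ψ)) * t b = t b + b := by
      rw [mul_add, add_mul, hba, mul_assoc b (q + q * Ψ), hba', htb1, hbq]
    calc (1 - (q + Ψ) * b * (q + t Ψ)) * (1 - (q + Ψ) * t b * (q + t Ψ))
        = 1 - (q + Ψ) * (t b + b - b * ((q + t Ψ) * (q + Ψ)) * t b) * (q + t Ψ) := by
          noncomm_ring
      _ = 1 := by rw [huu, e1, sub_self, mul_zero, zero_mul, sub_zero]
  · calc (1 - (q + Ψ) * b * (q + t Ψ)) * q = q - (q + Ψ) * (b * (q * q + t Ψ * q)) := by
          noncomm_ring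
      _ = q - (q * q + Ψ * q) := by rw [hqq, hba, add_mul, hqq]
      _ = -Ψ := by rw [hqq, hΨq]; abel

/-- Elements which agree on the grading agree. -/
lemma Sit.ext' (h : Sit t ρ G d q) {f g : Module.End K V} (hfg : ∀ m, ∀ x ∈ G m, f x = g x) :
    f = g := by
  rw [← sub_eq_zero]
  apply h.ext
  intro m x hx
  rw [LinearMap.sub_apply, hfg m x hx, sub_self]

/-- On a graded piece only one of the indices contributes. -/
lemma sum_ite_gr (h : Sit t ρ G d q) {m : ℤ} {x : V} (hx : x ∈ G m) (f : ℕ → Module.End K V) :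
    ∑ n ∈ Finset.range (2 * d + 1), (if m = n then f n x else 0) =
      if 0 ≤ m then f m.toNat x else 0 := by
  rcases lt_or_ge m 0 with hm | hm
  · rw [if_neg (by omega)]
    apply Finset.sum_eq_zero
    intro n _
    rw [if_neg (by omega)]
  · rw [if_pos hm]
    obtain ⟨j, rfl⟩ := Int.eq_ofNat_of_zero_le hm
    rcases lt_or_ge (2 * d) j with hj | hj
    · rw [h.top _ (by omega), Submodule.mem_bot] at hx
      rw [hx, map_zero]
      apply Finset.sum_eq_zero
      intro n _
      rw [map_zero]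
      split_ifs <;> rfl
    · rw [Finset.sum_eq_single j]
      · rw [if_pos rfl]; rfl
      · intro n _ hn
        rw [if_neg (by omega)]
      · intro h'
        exact absurd (Finset.mem_range.2 (by omega)) h'

/-- **Existence of a self-dual decomposition of the corner.** -/
theorem Sit.exists_dec_of_components (h : Sit t ρ G d q) (α : ℕ → A)
    (h1 : ∀ (n : ℕ) (m : ℤ) x, n ≤ 2 * d → x ∈ G m → ρ (α n) x = if m = n then ρ q x else 0)
    (h2 : ∀ (n : ℕ) (m : ℤ) x, n ≤ 2 * d → x ∈ G m →
      ρ (t (α n)) x = if m = (2 * d - n : ℕ) then ρ q x else 0) :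
    ∃ e, Dec t ρ G d q e := by
  have hqq : ∀ x, ρ q (ρ q x) = ρ q x := by
    intro x
    rw [← Module.End.mul_apply, ← map_mul, h.qq]
  set D' : A := ∑ n ∈ Finset.range (2 * d + 1), ((n : ℤ) - d) • (q * α n * q) with hD'
  have hqD' : q * D' = D' := by
    rw [hD', Finset.mul_sum]
    refine Finset.sum_congr rfl fun n _ => ?_
    rw [mul_smul_comm, ← mul_assoc, ← mul_assoc, h.qq]
  have hD'q : D' * q = D' := by
    rw [hD', Finset.sum_mul]
    refine Finset.sum_congr rfl fun n _ => ?_
    rw [smul_mul_assoc, mul_assoc, h.qq]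
  have hqt : q * t D' = t D' := by
    have := congrArg t hD'q
    rwa [h.tmul, h.tq] at this
  have htq : t D' * q = t D' := by
    have := congrArg t hqD'
    rwa [h.tmul, h.tq] at this
  have htD' : t D' = ∑ n ∈ Finset.range (2 * d + 1), ((n : ℤ) - d) • (q * t (α n) * q) := by
    rw [hD', map_sum]
    refine Finset.sum_congr rfl fun n _ => ?_
    rw [map_zsmul, h.tmul, h.tmul, h.tq, mul_assoc]
  have hact1 : ∀ m x, x ∈ G m → ρ D' x = (m - d) • ρ q x := by
    intro m x hx
    rw [hD', map_sum, LinearMap.sum_apply]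
    have e1 : ∀ n ∈ Finset.range (2 * d + 1), ρ (((n : ℤ) - d) • (q * α n * q)) x =
        if m = n then ((((n : ℤ) - d) • ρ q : Module.End K V)) x else 0 := by
      intro n hn
      rw [Finset.mem_range] at hn
      rw [map_zsmul, LinearMap.smul_apply, map_mul, map_mul, Module.End.mul_apply,
        Module.End.mul_apply, h1 n m _ (by omega) (h.pres q m x hx)]
      split_ifs
      · rw [hqq, hqq]; rfl
      · rw [map_zero, smul_zero]
    rw [Finset.sum_congr rfl e1]
    have e2 := sum_ite_gr h hx (fun n => ((((n : ℤ) - d) • ρ q : Module.End K V)))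
    rw [e2]
    split_ifs with hm
    · obtain ⟨j, rfl⟩ := Int.eq_ofNat_of_zero_le hm
      rfl
    · rw [h.low m (by omega), Submodule.mem_bot] at hx
      rw [hx, map_zero, smul_zero]
  have hact2 : ∀ m x, x ∈ G m → ρ (t D') x = (d - m) • ρ q x := by
    intro m x hx
    rw [htD', map_sum, LinearMap.sum_apply,
      ← Finset.sum_range_reflect (fun n => ρ (((n : ℤ) - d) • (q * t (α n) * q)) x)]
    have e1 : ∀ n ∈ Finset.range (2 * d + 1), ρ ((((2 * d + 1 - 1 - n : ℕ) : ℤ) - d) •
        (q * t (α (2 * d + 1 - 1 - n)) * q)) x =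
        if m = n then ((((d : ℤ) - n) • ρ q : Module.End K V)) x else 0 := by
      intro n hn
      rw [Finset.mem_range] at hn
      rw [map_zsmul, LinearMap.smul_apply, map_mul, map_mul, Module.End.mul_apply,
        Module.End.mul_apply, h2 _ m _ (by omega) (h.pres q m x hx)]
      have e3 : 2 * d - (2 * d + 1 - 1 - n) = n := by omega
      rw [e3]
      split_ifs
      · rw [hqq, hqq, LinearMap.smul_apply]
        congr 1
        omega
      · rw [map_zero, smul_zero]
    rw [Finset.sum_congr rfl e1]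
    have e2 := sum_ite_gr h hx (fun n => ((((d : ℤ) - n) • ρ q : Module.End K V)))
    rw [e2]
    split_ifs with hm
    · obtain ⟨j, rfl⟩ := Int.eq_ofNat_of_zero_le hm
      rfl
    · rw [h.low m (by omega), Submodule.mem_bot] at hx
      rw [hx, map_zero, smul_zero]
  apply h.exists_dec (D := D' - t D')
  · rw [mul_sub, hqD', hqt]
  · rw [sub_mul, hD'q, htq]
  · rw [map_sub, h.tt, neg_sub]
  · intro m x hx
    rw [map_sub, LinearMap.sub_apply, hact1 m x hx, hact2 m x hx, ← sub_smul]
    congr 1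
    ring

/-- **Witt cancellation.** -/
theorem Sit.exists_move (h : Sit t ρ G d q) {p : ℕ → A} (hp : Dec t ρ G d 1 p) :
    ∃ s : A, t s * s = 1 ∧ s * t s = 1 ∧ ρ s = 1 ∧ ∀ n, Commute (t s * p n * s) q := by
  have hρ1 : ρ 1 = 1 := map_one ρ
  obtain ⟨e, he⟩ := h.exists_dec_of_components (fun n => q * p n * q) (by
    intro n m x _ hx
    rw [map_mul, map_mul, Module.End.mul_apply, Module.End.mul_apply,
      hp.act n m _ (h.pres q m x hx)]
    split_ifs
    · rw [hρ1, Module.End.one_apply, ← Module.End.mul_apply, ← map_mul, h.qq]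
    · rw [map_zero]) (by
    intro n m x hn hx
    rw [h.tmul, h.tmul, h.tq, ← mul_assoc, hp.dual n hn, map_mul, map_mul, Module.End.mul_apply,
      Module.End.mul_apply, hp.act _ m _ (h.pres q m x hx)]
    split_ifs
    · rw [hρ1, Module.End.one_apply, ← Module.End.mul_apply, ← map_mul, h.qq]
    · rw [map_zero])
  -- the graded map
  set Φ : A := ∑ n ∈ Finset.range (2 * d + 1), p n * e n with hΦ
  have htΦ : t Φ = ∑ n ∈ Finset.range (2 * d + 1), e n * p n := by
    rw [hΦ, map_sum, ← Finset.sum_range_reflect (fun n => t (p n * e n))]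
    refine Finset.sum_congr rfl fun n hn => ?_
    rw [Finset.mem_range] at hn
    rw [h.tmul, he.dual _ (by omega), hp.dual _ (by omega)]
    have e3 : 2 * d - (2 * d + 1 - 1 - n) = n := by omega
    rw [e3]
  have hpΦ : ∀ n, p n * Φ = p n * e n := by
    intro n
    by_cases hn : n ≤ 2 * d
    · rw [hΦ, Finset.mul_sum, Finset.sum_eq_single n]
      · rw [← mul_assoc, hp.mul, if_pos rfl]
      · intro m _ hm
        rw [← mul_assoc, hp.mul, if_neg (Ne.symm hm), zero_mul]
      · intro h'
        exact absurd (Finset.mem_range.2 (by omega)) h'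
    · rw [hp.out n (by omega), zero_mul, zero_mul]
  have hΦe : ∀ n, Φ * e n = p n * e n := by
    intro n
    by_cases hn : n ≤ 2 * d
    · rw [hΦ, Finset.sum_mul, Finset.sum_eq_single n]
      · rw [mul_assoc, he.mul, if_pos rfl]
      · intro m _ hm
        rw [mul_assoc, he.mul, if_neg hm, mul_zero]
      · intro h'
        exact absurd (Finset.mem_range.2 (by omega)) h'
    · rw [he.out n (by omega), mul_zero, mul_zero]
  have htΦp : ∀ n, t Φ * p n = e n * p n := by
    intro n
    by_cases hn : n ≤ 2 * d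
    · rw [htΦ, Finset.sum_mul, Finset.sum_eq_single n]
      · rw [mul_assoc, hp.mul, if_pos rfl]
      · intro m _ hm
        rw [mul_assoc, hp.mul, if_neg hm, mul_zero]
      · intro h'
        exact absurd (Finset.mem_range.2 (by omega)) h'
    · rw [hp.out n (by omega), mul_zero, mul_zero]
  have hetΦ : ∀ n, e n * t Φ = e n * p n := by
    intro n
    by_cases hn : n ≤ 2 * d
    · rw [htΦ, Finset.mul_sum, Finset.sum_eq_single n]
      · rw [← mul_assoc, he.mul, if_pos rfl]
      · intro m _ hm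
        rw [← mul_assoc, he.mul, if_neg (Ne.symm hm), zero_mul]
      · intro h'
        exact absurd (Finset.mem_range.2 (by omega)) h'
    · rw [he.out n (by omega), zero_mul, zero_mul]
  have hΦq : Φ * q = Φ := by
    rw [hΦ, Finset.sum_mul]
    exact Finset.sum_congr rfl fun n _ => by rw [mul_assoc, he.right]
  have hqtΦ : q * t Φ = t Φ := by
    have := congrArg t hΦq
    rwa [h.tmul, h.tq] at this
  have hactΦ : ρ Φ = ρ q := by
    apply h.ext'
    intro m x hx
    rw [hΦ, map_sum, LinearMap.sum_apply]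
    have e1 : ∀ n ∈ Finset.range (2 * d + 1), ρ (p n * e n) x =
        if m = n then ρ q x else 0 := by
      intro n _
      rw [map_mul, Module.End.mul_apply, he.act n m x hx]
      split_ifs with hmn
      · rw [hp.act n m _ (h.pres q m x hx), if_pos hmn, hρ1]; rfl
      · rw [map_zero]
    rw [Finset.sum_congr rfl e1, sum_ite_gr h hx (fun _ => ρ q)]
    split_ifs with hm
    · rfl
    · rw [h.low m (by omega), Submodule.mem_bot] at hx
      rw [hx, map_zero]
  have hacttΦ : ρ (t Φ) = ρ q := by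
    apply h.ext'
    intro m x hx
    rw [htΦ, map_sum, LinearMap.sum_apply]
    have e1 : ∀ n ∈ Finset.range (2 * d + 1), ρ (e n * p n) x =
        if m = n then ρ q x else 0 := by
      intro n _
      rw [map_mul, Module.End.mul_apply, hp.act n m x hx]
      split_ifs with hmn
      · rw [he.act n m _ (h.pres 1 m x hx), if_pos hmn, hρ1]; rfl
      · rw [map_zero]
    rw [Finset.sum_congr rfl e1, sum_ite_gr h hx (fun _ => ρ q)]
    split_ifs with hm
    · rfl
    · rw [h.low m (by omega), Submodule.mem_bot] at hx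
      rw [hx, map_zero]
  have hρqq : ρ q * ρ q = ρ q := by rw [← map_mul, h.qq]
  -- the defect of isometry
  set x : A := t Φ * Φ - q with hx
  have htx : t x = x := by rw [hx, map_sub, h.tmul, h.tt, h.tq]
  have hqx : q * x = x := by rw [hx, mul_sub, ← mul_assoc, hqtΦ, h.qq]
  have hxq : x * q = x := by rw [hx, sub_mul, mul_assoc, hΦq, h.qq]
  have hρx : ρ x = 0 := by rw [hx, map_sub, map_mul, hactΦ, hacttΦ, hρqq, sub_self]
  have hxe : ∀ n, Commute x (e n) := by
    intro n
    rw [Commute, SemiconjBy, hx, sub_mul, mul_sub, he.left, he.right, mul_assoc, hΦe,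
      ← mul_assoc, htΦp, ← mul_assoc, hetΦ, mul_assoc (e n) (p n) Φ, hpΦ, mul_assoc]
  obtain ⟨k, hk⟩ := h.nil x hqx hxq hρx
  obtain ⟨S, hS0, hS⟩ := exists_sqrt k
  set w : A := aeval x S with hw
  have hw1 : (1 + x) * w ^ 2 = 1 := by
    obtain ⟨R, hR⟩ := hS
    have e1 := congrArg (aeval x) hR
    rw [map_mul (aeval x) (X ^ (k + 1)) R, map_pow, aeval_X, pow_succ x, hk, zero_mul,
      zero_mul, map_sub, map_mul, map_add, map_one, aeval_X, map_pow] at e1
    exact sub_eq_zero.1 e1
  have hcw : ∀ y : A, Commute x y → Commute w y := fun y hy => commute_aeval S hy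
  have htw : t w = w := by rw [hw, t_aeval h.tmul h.tone, htx]
  have hρw : ρ w = 1 := by
    have h1 : (X : ℚ[X]) ∣ S - 1 := by
      rw [X_dvd_iff, coeff_sub, coeff_one_zero, coeff_zero_eq_eval_zero, hS0, sub_self]
    obtain ⟨R, hR⟩ := h1
    have e1 := congrArg (aeval x) hR
    rw [map_sub, map_one, map_mul, aeval_X] at e1
    rw [hw, sub_eq_iff_eq_add.1 e1, map_add, map_mul, hρx, zero_mul, zero_add, hρ1]
  have hwq : Commute w q := hcw q (by rw [Commute, SemiconjBy, hqx, hxq])
  have hwx : Commute w x := hcw x (Commute.refl x)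
  -- the isometric embedding
  set Ψ : A := Φ * w with hΨdef
  have htΨ : t Ψ = w * t Φ := by rw [hΨdef, h.tmul, htw]
  have hΨΨ : t Ψ * Ψ = q := by
    calc t Ψ * Ψ = w * (x + q) * w := by
          rw [htΨ, hΨdef, hx, sub_add_cancel]
          simp only [mul_assoc]
      _ = w * (q * (1 + x)) * w := by
          have e1 : q * (1 + x) = x + q := by rw [mul_add, mul_one, hqx, add_comm]
          rw [e1]
      _ = q * ((1 + x) * w ^ 2) := by
          have hc : Commute w (1 + x) := (Commute.one_right w).add_right hwx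
          rw [← mul_assoc w q, hwq.eq, mul_assoc q w, hc.eq, pow_two]
          simp only [mul_assoc]
      _ = q := by rw [hw1, mul_one]
  have hΨq : Ψ * q = Ψ := by rw [hΨdef, mul_assoc, hwq.eq, ← mul_assoc, hΦq]
  have hqtΨ : q * t Ψ = t Ψ := by
    have := congrArg t hΨq
    rwa [h.tmul, h.tq] at this
  have hpΨ : ∀ n, p n * Ψ = Ψ * e n := by
    intro n
    rw [hΨdef, ← mul_assoc, hpΦ, mul_assoc Φ w, (hcw _ (hxe n)).eq, ← mul_assoc, hΦe]
  have hactΨ : ρ Ψ = ρ q := by rw [hΨdef, map_mul, hactΦ, hρw, mul_one]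
  have hacttΨ : ρ (t Ψ) = ρ q := by rw [htΨ, map_mul, hacttΦ, hρw, one_mul]
  -- the inverse in the corner
  set y : A := t Ψ * q - q with hy
  have hqy : q * y = y := by rw [hy, mul_sub, ← mul_assoc, hqtΨ, h.qq]
  have hyq : y * q = y := by rw [hy, sub_mul, mul_assoc, h.qq]
  have hρy : ρ y = 0 := by rw [hy, map_sub, map_mul, hacttΨ, hρqq, sub_self]
  have hnil := h.nil y hqy hyq hρy
  obtain ⟨U, hU⟩ : IsUnit ((2 : A) + y) := by
    have h2 : IsUnit (2 : A) := by
      have : (2 : A) = algebraMap ℚ A 2 := by rw [map_ofNat]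
      rw [this]
      exact (isUnit_iff_ne_zero.2 (by norm_num)).map _
    exact hnil.isUnit_add_left_of_commute h2 (by
      rw [Commute, SemiconjBy, mul_two, two_mul])
  have ha : q + t Ψ * q = q * (U : A) := by
    rw [hU, mul_add, hqy, hy, mul_two]
    abel
  have hqU : Commute q (U : A) := by
    rw [hU]
    refine Commute.add_right (by rw [Commute, SemiconjBy, mul_two, two_mul]) ?_
    rw [Commute, SemiconjBy, hqy, hyq]
  have hqU' : Commute q (↑U⁻¹ : A) := hqU.units_inv_right
  obtain ⟨g1, g2, g3⟩ := exists_isometry (t := t) (q := q) (Ψ := Ψ) (b := q * (↑U⁻¹ : A)) h.tmul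
    h.tt h.tone h.qq h.tq hΨΨ hΨq (by rw [mul_assoc, ← hqU'.eq, ← mul_assoc, h.qq])
    (by rw [← mul_assoc, h.qq])
    (by rw [ha, mul_assoc, ← mul_assoc _ q, ← hqU'.eq, mul_assoc q, Units.inv_mul, mul_one, h.qq])
    (by rw [ha, mul_assoc, ← mul_assoc _ q, ← hqU.eq, mul_assoc q, Units.mul_inv, mul_one, h.qq])
  have hρσ : ρ (1 - (q + Ψ) * (q * (↑U⁻¹ : A)) * (q + t Ψ)) = 1 - 2 * ρ q := by
    have e1 : ρ (q * (↑U⁻¹ : A)) * (2 * ρ q) = ρ q := by
      have e2 : (q * (↑U⁻¹ : A)) * (2 * q + y) = q := by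
        have : 2 * q + y = q * (U : A) := by
          rw [← ha, hy, two_mul]
          abel
        rw [this, mul_assoc, ← mul_assoc _ q, ← hqU'.eq, mul_assoc q, Units.inv_mul, mul_one, h.qq]
      have e3 := congrArg ρ e2
      rw [map_mul, map_add, hρy, add_zero, map_mul ρ 2 q, map_ofNat] at e3
      exact e3
    rw [map_sub, hρ1, map_mul, map_mul ρ (q + Ψ), map_add, map_add, hactΨ, hacttΨ, ← two_mul,
      mul_assoc, e1, mul_assoc, hρqq]
  set σ : A := 1 - (q + Ψ) * (q * (↑U⁻¹ : A)) * (q + t Ψ) with hσ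
  have hr : (1 - 2 * q) * (1 - 2 * q) = 1 := by
    calc (1 - 2 * q) * (1 - 2 * q) = 1 + 4 * (q * q - q) := by noncomm_ring
      _ = 1 := by rw [h.qq, sub_self, mul_zero, add_zero]
  have htr : t (1 - 2 * q) = 1 - 2 * q := by
    rw [map_sub, h.tone, two_mul, map_add, h.tq]
  have hqr : q * (1 - 2 * q) = -q := by
    calc q * (1 - 2 * q) = q - 2 * (q * q) := by noncomm_ring
      _ = -q := by rw [h.qq, two_mul]; abel
  have hrq : (1 - 2 * q) * q = -q := by
    calc (1 - 2 * q) * q = q - 2 * (q * q) := by noncomm_ring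
      _ = -q := by rw [h.qq, two_mul]; abel
  refine ⟨σ * (1 - 2 * q), ?_, ?_, ?_, ?_⟩
  · rw [h.tmul, htr, mul_assoc, ← mul_assoc (t σ), g1, one_mul, hr]
  · rw [h.tmul, htr, mul_assoc, ← mul_assoc (1 - 2 * q), hr, one_mul, g2]
  · rw [map_mul, hρσ, map_sub, hρ1, map_mul, map_ofNat]
    calc (1 - 2 * ρ q) * (1 - 2 * ρ q) = 1 + 4 * (ρ q * ρ q - ρ q) := by noncomm_ring
      _ = 1 := by rw [hρqq, sub_self, mul_zero, add_zero]
  · intro n
    have hf1 : σ * (1 - 2 * q) * q = Ψ := by rw [mul_assoc, hrq, mul_neg, g3, neg_neg]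
    have hf2 : q * t (σ * (1 - 2 * q)) = t Ψ := by
      have := congrArg t hf1
      rwa [h.tmul, h.tq] at this
    have hf3 : t (σ * (1 - 2 * q)) * (σ * (1 - 2 * q)) = 1 := by
      rw [h.tmul, htr, mul_assoc, ← mul_assoc (t σ), g1, one_mul, hr]
    set s : A := σ * (1 - 2 * q) with hs
    have htΨp : ∀ n ≤ 2 * d, t Ψ * p n = e n * t Ψ := by
      intro n hn
      have := congrArg t (hpΨ (2 * d - n))
      rw [h.tmul (p (2 * d - n)) Ψ, h.tmul Ψ (e (2 * d - n)), he.dual _ (Nat.sub_le _ _),
        hp.dual _ (Nat.sub_le _ _), Nat.sub_sub_self hn] at this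
      exact this
    by_cases hn : n ≤ 2 * d
    · rw [Commute, SemiconjBy]
      calc t s * p n * s * q = t s * (p n * (s * q)) := by simp only [mul_assoc]
        _ = t s * (Ψ * e n) := by rw [hf1, hpΨ]
        _ = t s * (s * q) * e n := by rw [← mul_assoc, hf1]
        _ = e n := by rw [← mul_assoc (t s), hf3, one_mul, he.left]
        _ = e n * (q * t s) * s := by rw [mul_assoc, mul_assoc q, hf3, mul_one, he.right]
        _ = t Ψ * p n * s := by rw [hf2, htΨp n hn]
        _ = q * (t s * p n * s) := by rw [← hf2]; simp only [mul_assoc]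
    · rw [hp.out n (by omega), mul_zero, zero_mul]
      exact Commute.zero_left q

end

end Pool.Agent.N103.SD
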